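import Pool.Agent.Helper27.DynMod.Basic

set_option autoImplicit false

open MvPolynomial

namespace Pool.Agent.Helper27.DynMod

variable {N d n : ℕ}

/-- abbreviation for the matrix type -/
abbrev Mat (N : ℕ) := Matrix (Fin (N + 1)) (Fin (N + 1)) ℂ

theorem conj_iff {A : GL (Fin (N + 1)) ℂ} {l : ℂˣ} {a b : CoefIx N d → ℂ} :
    Conj A l a b ↔ b = twist ((l : ℂ) • ((A⁻¹ : GL (Fin (N + 1)) ℂ) : Mat N)) (A : Mat N) a := by
  constructor
  · intro h
    refine formMap_injective fun z => ?_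
    rw [formMap_twist, h z, Matrix.smul_mulVec]
  · rintro rfl z
    rw [formMap_twist, Matrix.smul_mulVec]

theorem GL_inv_mulVec_mulVec (A : GL (Fin (N + 1)) ℂ) (z : Fin (N + 1) → ℂ) :
    ((A⁻¹ : GL (Fin (N + 1)) ℂ) : Mat N).mulVec ((A : Mat N).mulVec z) = z := by
  rw [Matrix.mulVec_mulVec, ← Units.val_mul, inv_mul_cancel]; simp

theorem GL_mulVec_inv_mulVec (A : GL (Fin (N + 1)) ℂ) (z : Fin (N + 1) → ℂ) :
    (A : Mat N).mulVec (((A⁻¹ : GL (Fin (N + 1)) ℂ) : Mat N).mulVec z) = z := by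
  rw [Matrix.mulVec_mulVec, ← Units.val_mul, mul_inv_cancel]; simp

theorem GL_mulVec_eq_zero {A : GL (Fin (N + 1)) ℂ} {z : Fin (N + 1) → ℂ}
    (h : (A : Mat N).mulVec z = 0) : z = 0 := by
  rw [← GL_inv_mulVec_mulVec A z, h, Matrix.mulVec_zero]

theorem Conj.iterate {A : GL (Fin (N + 1)) ℂ} {l : ℂˣ} {a b : CoefIx N d → ℂ}
    (h : Conj A l a b) (k : ℕ) : ∃ ν : ℂ, ν ≠ 0 ∧ ∀ z, (formMap b)^[k] z =
      ν • ((A⁻¹ : GL (Fin (N + 1)) ℂ) : Mat N).mulVec ((formMap a)^[k] ((A : Mat N).mulVec z)) := by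
  induction k with
  | zero => exact ⟨1, one_ne_zero, fun z => by simp⟩
  | succ k ih =>
    obtain ⟨ν, hν, ih⟩ := ih
    refine ⟨l * ν ^ d, mul_ne_zero l.ne_zero (pow_ne_zero _ hν), fun z => ?_⟩
    rw [Function.iterate_succ_apply', ih, h, Matrix.mulVec_smul, GL_mulVec_inv_mulVec,
      formMap_smul, Matrix.mulVec_smul, Function.iterate_succ_apply', smul_smul]

theorem isEndo_conj {A : GL (Fin (N + 1)) ℂ} {l : ℂˣ} {a b : CoefIx N d → ℂ}
    (h : Conj A l a b) (ha : IsEndo a) : IsEndo b := by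
  intro x hx
  rw [h x] at hx
  have h1 := (smul_eq_zero.1 hx).resolve_left l.ne_zero
  exact GL_mulVec_eq_zero (ha _ (GL_mulVec_eq_zero h1))

theorem hasExactPeriod_conj {A : GL (Fin (N + 1)) ℂ} {l m : ℂˣ} {a b : CoefIx N d → ℂ}
    (h : Conj A l a b) {x : Fin (N + 1) → ℂ} (hx : HasExactPeriod (formMap a) x n) :
    HasExactPeriod (formMap b)
      ((m : ℂ) • ((A⁻¹ : GL (Fin (N + 1)) ℂ) : Mat N).mulVec x) n := by
  obtain ⟨h0, ⟨l', h1⟩, h2⟩ := hx
  have key : ∀ k : ℕ, ∃ ν : ℂ, ν ≠ 0 ∧ (formMap b)^[k]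
      ((m : ℂ) • ((A⁻¹ : GL (Fin (N + 1)) ℂ) : Mat N).mulVec x) =
        ν • ((A⁻¹ : GL (Fin (N + 1)) ℂ) : Mat N).mulVec ((formMap a)^[k] x) := by
    intro k
    obtain ⟨ν, hν, h⟩ := h.iterate k
    refine ⟨ν * (m : ℂ) ^ d ^ k, mul_ne_zero hν (pow_ne_zero _ m.ne_zero), ?_⟩
    rw [h, Matrix.mulVec_smul, GL_mulVec_inv_mulVec, iterate_formMap_smul, Matrix.mulVec_smul,
      smul_smul]
  refine ⟨?_, ?_, ?_⟩
  · intro h3
    have h4 := (smul_eq_zero.1 h3).resolve_left m.ne_zero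
    exact h0 (GL_mulVec_eq_zero h4)
  · obtain ⟨ν, hν, h3⟩ := key n
    refine ⟨ν * l' * (m : ℂ)⁻¹, ?_⟩
    rw [h3, h1, Matrix.mulVec_smul, smul_smul, smul_smul, mul_assoc,
      inv_mul_cancel₀ m.ne_zero, mul_one]
  · rintro k hk hkn ⟨l'', h3⟩
    obtain ⟨ν, hν, h4⟩ := key k
    rw [h4] at h3
    refine h2 k hk hkn ⟨ν⁻¹ * (l'' * m), ?_⟩
    have h5 := congrArg (fun v => (A : Mat N).mulVec v) h3
    simp only [Matrix.mulVec_smul, GL_mulVec_inv_mulVec] at h5
    rw [← smul_smul, ← smul_smul, ← h5, smul_smul, inv_mul_cancel₀ hν, one_smul]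

/-- The action on the cone over `End`. -/
noncomputable def EndCone.act (A : GL (Fin (N + 1)) ℂ) (l : ℂˣ) (a : EndCone N d) : EndCone N d :=
  ⟨Aff.of (twist ((l : ℂ) • ((A⁻¹ : GL (Fin (N + 1)) ℂ) : Mat N)) (A : Mat N) a.coef),
    isEndo_conj (conj_iff.2 rfl) a.2⟩

theorem EndCone.act_coef (A : GL (Fin (N + 1)) ℂ) (l : ℂˣ) (a : EndCone N d) :
    (EndCone.act A l a).coef =
      twist ((l : ℂ) • ((A⁻¹ : GL (Fin (N + 1)) ℂ) : Mat N)) (A : Mat N) a.coef := rfl

theorem EndCone.conj_act (A : GL (Fin (N + 1)) ℂ) (l : ℂˣ) (a : EndCone N d) :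
    Conj A l a.coef (EndCone.act A l a).coef := conj_iff.2 rfl

theorem EndCone.ext {a b : EndCone N d} (h : a.coef = b.coef) : a = b := Subtype.ext h

theorem EndCone.eq_act {A : GL (Fin (N + 1)) ℂ} {l : ℂˣ} {a b : EndCone N d}
    (h : Conj A l a.coef b.coef) : b = EndCone.act A l a :=
  EndCone.ext (conj_iff.1 h)

theorem EndCone.continuous_act (A : GL (Fin (N + 1)) ℂ) (l : ℂˣ) :
    Continuous (EndCone.act (d := d) A l) := by
  refine Continuous.subtype_mk ?_ _
  have : Continuous (fun a : Aff (CoefIx N d) =>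
      Aff.of (twist ((l : ℂ) • ((A⁻¹ : GL (Fin (N + 1)) ℂ) : Mat N)) (A : Mat N) a.coord)) := by
    refine Aff.continuous_of_poly _ (fun k => twist
      (((l : ℂ) • ((A⁻¹ : GL (Fin (N + 1)) ℂ) : Mat N)).map C) ((A : Mat N).map C) X k) ?_
    intro x k
    rw [map_twist]
    have e1 : ∀ M : Mat N, (M.map (C (σ := CoefIx N d))).map (eval x.coord) = M := by
      intro M
      ext i j
      simp
    rw [e1, e1]
    simp only [eval_X]
    rfl
  exact this.comp continuous_subtype_val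

theorem isOpenMap_mk_end : IsOpenMap (Quotient.mk (endSetoid N d) : EndCone N d → Moduli N d) := by
  intro U hU
  have h1 : IsOpen ((Quotient.mk (endSetoid N d)) ⁻¹' (Quotient.mk (endSetoid N d) '' U)) := by
    have : (Quotient.mk (endSetoid N d)) ⁻¹' (Quotient.mk (endSetoid N d) '' U)
        = ⋃ (A : GL (Fin (N + 1)) ℂ) (l : ℂˣ), (EndCone.act A l) ⁻¹' U := by
      ext b
      simp only [Set.mem_preimage, Set.mem_image, Set.mem_iUnion]
      constructor
      · rintro ⟨a, ha, hab⟩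
        obtain ⟨A, l, h⟩ : (endSetoid N d) b a := Quotient.exact hab.symm
        exact ⟨A, l, by rw [← EndCone.eq_act h]; exact ha⟩
      · rintro ⟨A, l, h⟩
        exact ⟨_, h, (Quotient.sound (show (endSetoid N d) b (EndCone.act A l b) from
          ⟨A, l, EndCone.conj_act A l b⟩)).symm⟩
    rw [this]
    exact isOpen_iUnion fun A => isOpen_iUnion fun l => hU.preimage (EndCone.continuous_act A l)
  exact h1

/-- The action on the cone over `End[n]`. -/
noncomputable def PtCone.act (A : GL (Fin (N + 1)) ℂ) (l m : ℂˣ) (p : PtCone N d n) :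
    PtCone N d n :=
  ⟨Aff.of (Sum.elim (twist ((l : ℂ) • ((A⁻¹ : GL (Fin (N + 1)) ℂ) : Mat N)) (A : Mat N) p.map.coef)
    ((m : ℂ) • ((A⁻¹ : GL (Fin (N + 1)) ℂ) : Mat N).mulVec p.pt)),
    isEndo_conj (conj_iff.2 rfl) p.2.1, hasExactPeriod_conj (conj_iff.2 rfl) p.2.2⟩

theorem PtCone.ext {p q : PtCone N d n} (h : p.map.coef = q.map.coef) (h' : p.pt = q.pt) :
    p = q := by
  refine Subtype.ext ?_
  funext i
  rcases i with i | i
  · exact congrFun h i
  · exact congrFun h' i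

theorem PtCone.eq_act {A : GL (Fin (N + 1)) ℂ} {l m : ℂˣ} {p q : PtCone N d n}
    (h : Conj A l p.map.coef q.map.coef)
    (h' : q.pt = (m : ℂ) • ((A⁻¹ : GL (Fin (N + 1)) ℂ) : Mat N).mulVec p.pt) :
    q = PtCone.act A l m p :=
  PtCone.ext (conj_iff.1 h) h'

theorem PtCone.act_rel (A : GL (Fin (N + 1)) ℂ) (l m : ℂˣ) (p : PtCone N d n) :
    (ptSetoid N d n) p (PtCone.act A l m p) :=
  ⟨A, l, m, conj_iff.2 rfl, rfl⟩

theorem PtCone.continuous_act (A : GL (Fin (N + 1)) ℂ) (l m : ℂˣ) :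
    Continuous (PtCone.act (d := d) (n := n) A l m) := by
  refine Continuous.subtype_mk ?_ _
  have : Continuous (fun p : Aff (CoefIx N d ⊕ Fin (N + 1)) =>
      Aff.of (Sum.elim (twist ((l : ℂ) • ((A⁻¹ : GL (Fin (N + 1)) ℂ) : Mat N)) (A : Mat N)
        (fun i => p.coord (Sum.inl i)))
        ((m : ℂ) • ((A⁻¹ : GL (Fin (N + 1)) ℂ) : Mat N).mulVec
          (fun j => p.coord (Sum.inr j))))) := by
    refine Aff.continuous_of_poly _ (Sum.elim (fun k => twist
      (((l : ℂ) • ((A⁻¹ : GL (Fin (N + 1)) ℂ) : Mat N)).map C) ((A : Mat N).map C)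
        (fun i => X (Sum.inl i)) k)
        (fun k => C (m : ℂ) * ∑ j, C (((A⁻¹ : GL (Fin (N + 1)) ℂ) : Mat N) k j) *
          X (Sum.inr j))) ?_
    intro x k
    rcases k with k | k
    · simp only [Sum.elim_inl]
      rw [map_twist]
      have e1 : ∀ M : Mat N, (M.map (C (σ := CoefIx N d ⊕ Fin (N + 1)))).map (eval x.coord) = M := by
        intro M
        ext i j
        simp
      rw [e1, e1]
      simp only [eval_X]
      rfl
    · simp only [Sum.elim_inr, map_mul, map_sum, eval_C, eval_X]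
      rfl
  exact this.comp continuous_subtype_val

theorem isOpenMap_mk_pt :
    IsOpenMap (Quotient.mk (ptSetoid N d n) : PtCone N d n → ModuliPt N d n) := by
  intro U hU
  have h1 : IsOpen ((Quotient.mk (ptSetoid N d n)) ⁻¹' (Quotient.mk (ptSetoid N d n) '' U)) := by
    have : (Quotient.mk (ptSetoid N d n)) ⁻¹' (Quotient.mk (ptSetoid N d n) '' U)
        = ⋃ (A : GL (Fin (N + 1)) ℂ) (l : ℂˣ) (m : ℂˣ), (PtCone.act A l m) ⁻¹' U := by
      ext b
      simp only [Set.mem_preimage, Set.mem_image, Set.mem_iUnion]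
      constructor
      · rintro ⟨a, ha, hab⟩
        obtain ⟨A, l, m, h, h'⟩ : (ptSetoid N d n) b a := Quotient.exact hab.symm
        exact ⟨A, l, m, by rw [← PtCone.eq_act h h']; exact ha⟩
      · rintro ⟨A, l, m, h⟩
        exact ⟨_, h, (Quotient.sound (PtCone.act_rel A l m b)).symm⟩
    rw [this]
    exact isOpen_iUnion fun A => isOpen_iUnion fun l => isOpen_iUnion fun m =>
      hU.preimage (PtCone.continuous_act A l m)
  exact h1

/-! ## Fibres of the quotient map are irreducible -/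

/-- Parameters of the orbit map: a matrix and two scalars. -/
abbrev GIx (N : ℕ) : Type := (Fin (N + 1) × Fin (N + 1)) ⊕ Bool

/-- the matrix of a parameter -/
def matOf {R : Type*} (N : ℕ) (y : GIx N → R) : Matrix (Fin (N + 1)) (Fin (N + 1)) R :=
  Matrix.of fun i j => y (Sum.inl (i, j))

/-- The polynomial orbit map. -/
noncomputable def orbitMap (p : CoefIx N d ⊕ Fin (N + 1) → ℂ) (y : GIx N → ℂ) :
    CoefIx N d ⊕ Fin (N + 1) → ℂ :=
  Sum.elim (twist (y (Sum.inr false) • (matOf N y).adjugate) (matOf N y) (fun i => p (Sum.inl i)))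
    (y (Sum.inr true) • (matOf N y).adjugate.mulVec (fun j => p (Sum.inr j)))

theorem continuous_orbitMap (p : CoefIx N d ⊕ Fin (N + 1) → ℂ) :
    Continuous (fun y : Aff (GIx N) => Aff.of (orbitMap p y.coord)) := by
  refine Aff.continuous_of_poly _ (Sum.elim
    (fun k => twist ((X (Sum.inr false) : MvPolynomial (GIx N) ℂ) • (matOf N X).adjugate)
      (matOf N X) (fun i => C (p (Sum.inl i))) k)
    (fun k => X (Sum.inr true) * ∑ j, (matOf N X).adjugate k j * C (p (Sum.inr j)))) ?_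
  intro x k
  have e0 : (matOf N (X (R := ℂ) (σ := GIx N))).map (eval x.coord) = matOf N x.coord := by
    ext i j
    simp [matOf]
  have e1 : (matOf N (X (R := ℂ) (σ := GIx N))).adjugate.map (eval x.coord) =
      (matOf N x.coord).adjugate := by
    have := RingHom.map_adjugate (eval x.coord) (matOf N (X (R := ℂ) (σ := GIx N)))
    simp only [RingHom.mapMatrix_apply] at this
    rw [this, e0]
  rcases k with k | k
  · simp only [Sum.elim_inl, Aff.coord_of, orbitMap]
    rw [map_twist, e0]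
    have e2 : ((X (Sum.inr false) : MvPolynomial (GIx N) ℂ) •
        (matOf N (X (R := ℂ) (σ := GIx N))).adjugate).map (eval x.coord) =
        x.coord (Sum.inr false) • (matOf N x.coord).adjugate := by
      rw [← e1]
      ext i j
      simp
    rw [e2]
    simp only [eval_C]
  · simp only [Sum.elim_inr, map_mul, map_sum, eval_C, eval_X, Aff.coord_of, orbitMap]
    rw [← e1]
    rfl

theorem isPreirreducible_of_image_val {X : Type*} [TopologicalSpace X] {P : X → Prop}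
    {S : Set {x // P x}} (h : IsPreirreducible (Subtype.val '' S)) : IsPreirreducible S := by
  rintro U V hU hV ⟨x, hxS, hxU⟩ ⟨y, hyS, hyV⟩
  obtain ⟨U', hU', rfl⟩ := hU
  obtain ⟨V', hV', rfl⟩ := hV
  obtain ⟨_, ⟨z, hz, rfl⟩, h1, h2⟩ := h U' V' hU' hV' ⟨x.1, ⟨x, hxS, rfl⟩, hxU⟩
    ⟨y.1, ⟨y, hyS, rfl⟩, hyV⟩
  exact ⟨z, hz, h1, h2⟩

theorem GL_inv_val (A : GL (Fin (N + 1)) ℂ) :
    ((A⁻¹ : GL (Fin (N + 1)) ℂ) : Mat N) = ((A : Mat N).det)⁻¹ • (A : Mat N).adjugate := by
  rw [Matrix.coe_units_inv, Matrix.inv_def, Ring.inverse_eq_inv']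

theorem orbitMap_eq_act (p : PtCone N d n) (A : GL (Fin (N + 1)) ℂ) (l m : ℂˣ) (y : GIx N → ℂ)
    (h1 : matOf N y = (A : Mat N)) (h2 : y (Sum.inr false) = l * ((A : Mat N).det)⁻¹)
    (h3 : y (Sum.inr true) = m * ((A : Mat N).det)⁻¹) :
    Aff.of (orbitMap p.coord y) = (PtCone.act A l m p).1 := by
  have e1 : y (Sum.inr false) • (matOf N y).adjugate =
      (l : ℂ) • ((A⁻¹ : GL (Fin (N + 1)) ℂ) : Mat N) := by
    rw [GL_inv_val, h1, h2, mul_smul]
  have e2 : y (Sum.inr true) • (matOf N y).adjugate.mulVec p.pt =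
      (m : ℂ) • ((A⁻¹ : GL (Fin (N + 1)) ℂ) : Mat N).mulVec p.pt := by
    rw [GL_inv_val, h1, h3, mul_smul, Matrix.smul_mulVec]
  have e3 : orbitMap p.coord y = Sum.elim (twist (y (Sum.inr false) • (matOf N y).adjugate)
    (matOf N y) p.map.coef) (y (Sum.inr true) • (matOf N y).adjugate.mulVec p.pt) := rfl
  rw [e3, e1, e2, h1]
  rfl

theorem isPreirreducible_fiber (m : ModuliPt N d n) :
    IsPreirreducible ((Quotient.mk (ptSetoid N d n) : PtCone N d n → ModuliPt N d n) ⁻¹' {m}) := by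
  obtain ⟨p, rfl⟩ := Quotient.exists_rep m
  refine isPreirreducible_of_image_val ?_
  set O : Set (Aff (GIx N)) := {y | eval y.coord ((matOf N X).det * X (Sum.inr false) *
    X (Sum.inr true)) ≠ 0} with hO
  have hOopen : IsOpen O := Aff.isOpen_basic _
  have hOmem : ∀ y : Aff (GIx N), y ∈ O ↔ (matOf N y.coord).det ≠ 0 ∧
      y.coord (Sum.inr false) ≠ 0 ∧ y.coord (Sum.inr true) ≠ 0 := by
    intro y
    have e0 : (matOf N (X (R := ℂ) (σ := GIx N))).map (eval y.coord) = matOf N y.coord := by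
      ext i j
      simp [matOf]
    have e1 : eval y.coord (matOf N (X (R := ℂ) (σ := GIx N))).det = (matOf N y.coord).det := by
      rw [RingHom.map_det, RingHom.mapMatrix_apply, e0]
    rw [hO, Set.mem_ofPred_eq, map_mul, map_mul, e1, eval_X, eval_X]
    simp [and_assoc]
  have hirr : IsPreirreducible O :=
    (PreirreducibleSpace.isPreirreducible_univ (X := Aff (GIx N))).open_subset hOopen (Set.subset_univ _) 
  have himg := hirr.image (fun y : Aff (GIx N) => Aff.of (orbitMap p.coord y.coord))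
    (continuous_orbitMap p.coord).continuousOn
  convert himg using 1
  ext q
  constructor
  · rintro ⟨q, hq, rfl⟩
    have hq' : Quotient.mk (ptSetoid N d n) q = Quotient.mk (ptSetoid N d n) p := hq
    obtain ⟨A, l, m, h, h'⟩ : (ptSetoid N d n) p q := Quotient.exact hq'.symm
    have hdet : (A : Mat N).det ≠ 0 := ((Matrix.isUnit_iff_isUnit_det _).1 A.isUnit).ne_zero
    set y : GIx N → ℂ := Sum.elim (fun ij => (A : Mat N) ij.1 ij.2)
      (fun b => if b then m * ((A : Mat N).det)⁻¹ else l * ((A : Mat N).det)⁻¹) with hy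
    have hm : matOf N y = (A : Mat N) := by
      ext i j
      simp [matOf, hy]
    refine ⟨Aff.of y, (hOmem _).2 ⟨?_, ?_, ?_⟩, ?_⟩
    · rw [Aff.coord_of, hm]; exact hdet
    · simp [hy, hdet]
    · simp [hy, hdet]
    · rw [PtCone.eq_act h h']
      exact orbitMap_eq_act p A l m y hm (by simp [hy]) (by simp [hy])
  · rintro ⟨y, hy, rfl⟩
    obtain ⟨h1, h2, h3⟩ := (hOmem y).1 hy
    set A : GL (Fin (N + 1)) ℂ := Matrix.GeneralLinearGroup.mkOfDetNeZero (matOf N y.coord) h1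
      with hA
    have hA' : (A : Mat N) = matOf N y.coord := rfl
    set l : ℂˣ := Units.mk0 (y.coord (Sum.inr false) * (matOf N y.coord).det)
      (mul_ne_zero h2 h1) with hl
    set m : ℂˣ := Units.mk0 (y.coord (Sum.inr true) * (matOf N y.coord).det)
      (mul_ne_zero h3 h1) with hm
    refine ⟨PtCone.act A l m p, ?_, ?_⟩
    · show Quotient.mk (ptSetoid N d n) (PtCone.act A l m p) = Quotient.mk (ptSetoid N d n) p
      exact (Quotient.sound (PtCone.act_rel A l m p)).symm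
    · refine (orbitMap_eq_act p A l m y.coord hA'.symm ?_ ?_).symm
      · rw [hA', hl, Units.val_mk0, mul_assoc, mul_inv_cancel₀ h1, mul_one]
      · rw [hA', hm, Units.val_mk0, mul_assoc, mul_inv_cancel₀ h1, mul_one]

theorem isIrreducible_preimage {Z : Set (ModuliPt N d n)} (hZ : IsIrreducible Z) :
    IsIrreducible ((Quotient.mk (ptSetoid N d n) : PtCone N d n → ModuliPt N d n) ⁻¹' Z) := by
  refine hZ.preimage_of_isPreirreducible_fiber _ isOpenMap_mk_pt isPreirreducible_fiber ?_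
  obtain ⟨z, hz⟩ := hZ.nonempty
  exact ⟨z, hz, Quotient.exists_rep z⟩

end Pool.Agent.Helper27.DynMod
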