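import Pool.Agent.Helper27.DynMod.Defs

set_option autoImplicit false

open MvPolynomial

namespace Pool.Agent.Helper27.DynMod

/-- A point of affine space with given coordinates. -/
def Aff.of {ι : Type} (x : ι → ℂ) : Aff ι := x

@[simp] theorem Aff.coord_of {ι : Type} (x : ι → ℂ) : (Aff.of x).coord = x := rfl

/-! ## Zariski topology -/

theorem Aff.isOpen_basic {ι : Type} (p : MvPolynomial ι ℂ) :
    IsOpen {x : Aff ι | eval x.coord p ≠ 0} :=
  TopologicalSpace.isOpen_generateFrom_of_mem ⟨p, rfl⟩

theorem Aff.isTopologicalBasis (ι : Type) : TopologicalSpace.IsTopologicalBasis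
    {U | ∃ p : MvPolynomial ι ℂ, U = {x : Aff ι | eval x.coord p ≠ 0}} where
  exists_subset_inter := by
    rintro _ ⟨p, rfl⟩ _ ⟨q, rfl⟩ x ⟨hx, hx'⟩
    refine ⟨_, ⟨p * q, rfl⟩, ?_, ?_⟩
    · simpa using ⟨hx, hx'⟩
    · intro y hy
      simpa using hy
  sUnion_eq := by
    apply Set.eq_univ_of_forall
    intro x
    exact ⟨_, ⟨1, rfl⟩, by simp⟩
  eq_generateFrom := rfl

theorem Aff.exists_poly_of_isClosed {ι : Type} {C : Set (Aff ι)} (hC : IsClosed C) {x : Aff ι}
    (hx : x ∉ C) : ∃ p : MvPolynomial ι ℂ, eval x.coord p ≠ 0 ∧ ∀ y ∈ C, eval y.coord p = 0 := by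
  obtain ⟨U, ⟨p, rfl⟩, h1, h2⟩ := (Aff.isTopologicalBasis ι).exists_subset_of_mem_open
    (show x ∈ Cᶜ from hx) hC.isOpen_compl
  refine ⟨p, h1, fun y hy => ?_⟩
  by_contra h
  exact h2 h hy

theorem eval_bind {ι κ : Type} {R : Type*} [CommSemiring R] (x : ι → R)
    (P : κ → MvPolynomial ι R) (p : MvPolynomial κ R) :
    eval x (bind₁ P p) = eval (fun k => eval x (P k)) p := by
  rw [hom_bind₁]
  have : (eval x).comp C = RingHom.id R := by ext r; simp
  rw [this]
  rfl

theorem Aff.continuous_of_poly {ι κ : Type} (f : Aff ι → Aff κ) (P : κ → MvPolynomial ι ℂ)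
    (h : ∀ x k, (f x).coord k = eval x.coord (P k)) : Continuous f := by
  refine continuous_generateFrom_iff.2 ?_
  rintro _ ⟨p, rfl⟩
  convert Aff.isOpen_basic (bind₁ P p) using 1
  ext x
  simp only [Set.mem_preimage, Set.mem_ofPred_eq]
  have : (f x).coord = fun k => eval x.coord (P k) := funext (h x)
  rw [this, eval_bind]

theorem Aff.preirreducible (ι : Type) : PreirreducibleSpace (Aff ι) := by
  refine ⟨fun U V hU hV ⟨x, _, hx⟩ ⟨y, _, hy⟩ => ?_⟩
  obtain ⟨_, ⟨p, rfl⟩, h1, h2⟩ := (Aff.isTopologicalBasis ι).exists_subset_of_mem_open hx hU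
  obtain ⟨_, ⟨q, rfl⟩, h3, h4⟩ := (Aff.isTopologicalBasis ι).exists_subset_of_mem_open hy hV
  have hp : p ≠ 0 := by rintro rfl; simp at h1
  have hq : q ≠ 0 := by rintro rfl; simp at h3
  have hpq : p * q ≠ 0 := mul_ne_zero hp hq
  have : ∃ z : ι → ℂ, eval z (p * q) ≠ 0 := by
    by_contra hcon
    push Not at hcon
    exact hpq (MvPolynomial.funext fun z => by rw [hcon z, map_zero])
  obtain ⟨z, hz⟩ := this
  rw [map_mul] at hz
  exact ⟨z, trivial, h2 (left_ne_zero_of_mul hz), h4 (right_ne_zero_of_mul hz)⟩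

instance (ι : Type) : PreirreducibleSpace (Aff ι) := Aff.preirreducible ι

/-! ## Homogeneous maps -/

theorem formMap_smul {R : Type*} [CommSemiring R] {N d : ℕ} (a : CoefIx N d → R) (c : R)
    (x : Fin (N + 1) → R) : formMap a (c • x) = c ^ d • formMap a x := by
  funext i
  simp only [formMap, Pi.smul_apply, smul_eq_mul, Finset.mul_sum]
  refine Finset.sum_congr rfl fun s _ => ?_
  have : ((s : Multiset (Fin (N + 1))).map (fun j => c * x j)).prod
      = c ^ d * ((s : Multiset (Fin (N + 1))).map x).prod := by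
    have h := Multiset.prod_map_mul (m := (s : Multiset (Fin (N + 1)))) (f := fun _ => c) (g := x)
    simp only [Multiset.map_const', Multiset.prod_replicate, Sym.card_coe] at h
    exact h
  rw [this]
  ring

theorem formMap_zero {R : Type*} [CommSemiring R] {N d : ℕ} (hd : d ≠ 0) (a : CoefIx N d → R) :
    formMap a 0 = 0 := by
  have := formMap_smul a 0 0
  simpa [hd] using this

theorem iterate_formMap_smul {R : Type*} [CommSemiring R] {N d : ℕ} (a : CoefIx N d → R) (c : R)
    (x : Fin (N + 1) → R) (k : ℕ) : (formMap a)^[k] (c • x) = c ^ d ^ k • (formMap a)^[k] x := by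
  induction k generalizing x c with
  | zero => simp
  | succ k ih =>
    rw [Function.iterate_succ_apply, formMap_smul, ih, Function.iterate_succ_apply, ← pow_mul]
    congr 2
    ring

theorem map_formMap {R S : Type*} [CommSemiring R] [CommSemiring S] (φ : R →+* S) {N d : ℕ}
    (a : CoefIx N d → R) (x : Fin (N + 1) → R) (i : Fin (N + 1)) :
    φ (formMap a x i) = formMap (fun j => φ (a j)) (fun j => φ (x j)) i := by
  simp only [formMap, map_sum, map_mul, map_multiset_prod, Multiset.map_map]
  rfl

theorem map_iterate_formMap {R S : Type*} [CommSemiring R] [CommSemiring S] (φ : R →+* S)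
    {N d : ℕ} (a : CoefIx N d → R) (x : Fin (N + 1) → R) (k : ℕ) (i : Fin (N + 1)) :
    φ ((formMap a)^[k] x i) = (formMap (fun j => φ (a j)))^[k] (fun j => φ (x j)) i := by
  induction k generalizing x with
  | zero => simp
  | succ k ih =>
    rw [Function.iterate_succ_apply, ih, Function.iterate_succ_apply]
    have : (fun j => φ (formMap a x j)) = formMap (fun j => φ (a j)) (fun j => φ (x j)) :=
      funext fun j => map_formMap φ a x j
    rw [this]

/-! ## Homogeneous polynomials and coefficient vectors -/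

/-- exponent vector of a symmetric power element -/
noncomputable def expo {N d : ℕ} (s : Sym (Fin (N + 1)) d) : Fin (N + 1) →₀ ℕ :=
  Multiset.toFinsupp (s : Multiset (Fin (N + 1)))

theorem expo_injective {N d : ℕ} : Function.Injective (expo (N := N) (d := d)) := by
  intro s t h
  exact Sym.coe_injective (Multiset.toFinsupp.injective h)

theorem prod_expo {R : Type*} [CommSemiring R] {N d : ℕ} (s : Sym (Fin (N + 1)) d)
    (x : Fin (N + 1) → R) :
    ((s : Multiset (Fin (N + 1))).map x).prod = ∏ i, x i ^ expo s i := by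
  rw [Finset.prod_multiset_map_count]
  simp only [expo, Multiset.toFinsupp_apply]
  refine Finset.prod_subset (Finset.subset_univ _) fun i _ hi => ?_
  rw [Multiset.mem_toFinset] at hi
  rw [Multiset.count_eq_zero_of_notMem hi, pow_zero]

theorem exists_expo {N d : ℕ} (m : Fin (N + 1) →₀ ℕ) (hm : m.degree = d) :
    ∃ s : Sym (Fin (N + 1)) d, expo s = m := by
  refine ⟨⟨Finsupp.toMultiset m, ?_⟩, ?_⟩
  · rw [Finsupp.card_toMultiset, ← hm]
    rfl
  · simp [expo]

theorem eval_of_isHomogeneous {R : Type*} [CommSemiring R] {N d : ℕ}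
    (P : MvPolynomial (Fin (N + 1)) R) (hP : P.IsHomogeneous d) (x : Fin (N + 1) → R) :
    eval x P = ∑ s : Sym (Fin (N + 1)) d,
      coeff (expo s) P * ((s : Multiset (Fin (N + 1))).map x).prod := by
  classical
  rw [MvPolynomial.eval_eq']
  have h1 : P.support ⊆ Finset.univ.map ⟨expo (N := N) (d := d), expo_injective⟩ := by
    intro m hm
    have := hP (mem_support_iff.1 hm)
    rw [Finset.mem_map]
    obtain ⟨s, hs⟩ := exists_expo (d := d) m (by
      rw [← this, Finsupp.degree_eq_weight_one]; rfl)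
    exact ⟨s, Finset.mem_univ _, hs⟩
  rw [Finset.sum_subset h1, Finset.sum_map]
  · refine Finset.sum_congr rfl fun s _ => ?_
    simp only [Function.Embedding.coeFn_mk]
    rw [prod_expo]
  · intro m _ hm
    rw [notMem_support_iff.1 hm, zero_mul]

/-- The polynomials with coefficient vector `a`. -/
noncomputable def polyOf {R : Type*} [CommSemiring R] {N d : ℕ} (a : CoefIx N d → R)
    (i : Fin (N + 1)) : MvPolynomial (Fin (N + 1)) R :=
  ∑ s : Sym (Fin (N + 1)) d, monomial (expo s) (a (i, s))

theorem eval_polyOf {R : Type*} [CommSemiring R] {N d : ℕ} (a : CoefIx N d → R)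
    (i : Fin (N + 1)) (x : Fin (N + 1) → R) : eval x (polyOf a i) = formMap a x i := by
  simp only [polyOf, formMap, map_sum]
  refine Finset.sum_congr rfl fun s _ => ?_
  rw [eval_monomial, prod_expo, Finsupp.prod_fintype]
  intro i; simp

theorem coeff_polyOf {R : Type*} [CommSemiring R] {N d : ℕ} (a : CoefIx N d → R)
    (i : Fin (N + 1)) (s : Sym (Fin (N + 1)) d) : coeff (expo s) (polyOf a i) = a (i, s) := by
  classical
  simp only [polyOf, coeff_sum, coeff_monomial]
  rw [Finset.sum_eq_single s]
  · simp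
  · intro t _ hts
    rw [if_neg]
    exact fun h => hts (expo_injective h)
  · simp

theorem formMap_injective {N d : ℕ} {a b : CoefIx N d → ℂ} (h : ∀ z, formMap a z = formMap b z) :
    a = b := by
  funext ⟨i, s⟩
  have : polyOf a i = polyOf b i := MvPolynomial.funext fun z => by
    rw [eval_polyOf, eval_polyOf, h z]
  rw [← coeff_polyOf a i s, ← coeff_polyOf b i s, this]

/-! ## Linear changes of variables -/

/-- The linear form `∑ A_{kl} X_l`. -/
noncomputable def linForm {R : Type*} [CommSemiring R] {N : ℕ}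
    (A : Matrix (Fin (N + 1)) (Fin (N + 1)) R) (k : Fin (N + 1)) :
    MvPolynomial (Fin (N + 1)) R := ∑ l, C (A k l) * X l

theorem isHomogeneous_linForm {R : Type*} [CommSemiring R] {N : ℕ}
    (A : Matrix (Fin (N + 1)) (Fin (N + 1)) R) (k : Fin (N + 1)) :
    (linForm A k).IsHomogeneous 1 := by
  refine IsHomogeneous.sum _ _ _ fun l _ => ?_
  simpa using (isHomogeneous_C _ (A k l)).mul (isHomogeneous_X R l)

theorem eval_linForm {R : Type*} [CommSemiring R] {N : ℕ}
    (A : Matrix (Fin (N + 1)) (Fin (N + 1)) R) (k : Fin (N + 1)) (x : Fin (N + 1) → R) :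
    eval x (linForm A k) = A.mulVec x k := by
  simp [linForm, Matrix.mulVec, dotProduct]

theorem isHomogeneous_prod_linForm {R : Type*} [CommSemiring R] {N : ℕ}
    (A : Matrix (Fin (N + 1)) (Fin (N + 1)) R) (m : Multiset (Fin (N + 1))) :
    ((m.map (linForm A)).prod).IsHomogeneous (Multiset.card m) := by
  induction m using Multiset.induction_on with
  | empty => simpa using isHomogeneous_one _ _
  | cons a m ih =>
    rw [Multiset.map_cons, Multiset.prod_cons, Multiset.card_cons, add_comm (Multiset.card m) 1]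
    exact (isHomogeneous_linForm A a).mul ih

/-- The coefficient vector of `B ∘ F_a ∘ A`. -/
noncomputable def twist {R : Type*} [CommSemiring R] {N d : ℕ}
    (B A : Matrix (Fin (N + 1)) (Fin (N + 1)) R) (a : CoefIx N d → R) : CoefIx N d → R :=
  fun p => ∑ j, ∑ t : Sym (Fin (N + 1)) d, B p.1 j * a (j, t) *
    coeff (expo p.2) (((t : Multiset (Fin (N + 1))).map (linForm A)).prod)

theorem formMap_twist {R : Type*} [CommSemiring R] {N d : ℕ}
    (B A : Matrix (Fin (N + 1)) (Fin (N + 1)) R) (a : CoefIx N d → R) (x : Fin (N + 1) → R) :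
    formMap (twist B A a) x = B.mulVec (formMap a (A.mulVec x)) := by
  funext i
  have key : ∀ t : Sym (Fin (N + 1)) d,
      ((t : Multiset (Fin (N + 1))).map (A.mulVec x)).prod = ∑ s : Sym (Fin (N + 1)) d,
        coeff (expo s) (((t : Multiset (Fin (N + 1))).map (linForm A)).prod) *
          ((s : Multiset (Fin (N + 1))).map x).prod := by
    intro t
    rw [← eval_of_isHomogeneous]
    · rw [map_multiset_prod, Multiset.map_map]
      congr 1
      refine Multiset.map_congr rfl fun k _ => ?_
      rw [Function.comp_apply, eval_linForm]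
    · have := isHomogeneous_prod_linForm A (t : Multiset (Fin (N + 1)))
      rwa [Sym.card_coe] at this
  have h1 : (B.mulVec (formMap a (A.mulVec x))) i = ∑ j, B i j * formMap a (A.mulVec x) j := rfl
  have h2 : formMap (twist B A a) x i = ∑ s : Sym (Fin (N + 1)) d,
      (∑ j, ∑ t : Sym (Fin (N + 1)) d, B i j * a (j, t) *
        coeff (expo s) (((t : Multiset (Fin (N + 1))).map (linForm A)).prod)) *
          ((s : Multiset (Fin (N + 1))).map x).prod := rfl
  have h3 : ∀ j, formMap a (A.mulVec x) j = ∑ t : Sym (Fin (N + 1)) d,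
      a (j, t) * ((t : Multiset (Fin (N + 1))).map (A.mulVec x)).prod := fun j => rfl
  rw [h1, h2]
  simp only [h3, key, Finset.sum_mul, Finset.mul_sum]
  rw [Finset.sum_comm]
  refine Finset.sum_congr rfl fun j _ => ?_
  rw [Finset.sum_comm]
  refine Finset.sum_congr rfl fun t _ => Finset.sum_congr rfl fun s _ => ?_
  ring

theorem map_linForm {R S : Type*} [CommSemiring R] [CommSemiring S] (φ : R →+* S) {N : ℕ}
    (A : Matrix (Fin (N + 1)) (Fin (N + 1)) R) (k : Fin (N + 1)) :
    MvPolynomial.map φ (linForm A k) = linForm (A.map φ) k := by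
  simp [linForm]

theorem map_twist {R S : Type*} [CommSemiring R] [CommSemiring S] (φ : R →+* S) {N d : ℕ}
    (B A : Matrix (Fin (N + 1)) (Fin (N + 1)) R) (a : CoefIx N d → R) (p : CoefIx N d) :
    φ (twist B A a p) = twist (B.map φ) (A.map φ) (fun j => φ (a j)) p := by
  simp only [twist, map_sum, map_mul, Matrix.map_apply]
  refine Finset.sum_congr rfl fun j _ => Finset.sum_congr rfl fun t _ => ?_
  congr 1
  rw [← coeff_map, map_multiset_prod, Multiset.map_map]
  congr 3
  funext k
  exact map_linForm φ A k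

end Pool.Agent.Helper27.DynMod
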