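import Pool.Agent.Helper27.DynMod.Family

set_option autoImplicit false

open MvPolynomial

namespace Pool.Agent.Helper27.DynMod

variable {N d n : ℕ}

/-- quotient map -/
def mkEnd (a : EndCone N d) : Moduli N d := Quotient.mk (endSetoid N d) a

/-- quotient map -/
def mkPt (a : PtCone N d n) : ModuliPt N d n := Quotient.mk (ptSetoid N d n) a

theorem continuous_mkEnd : Continuous (mkEnd (N := N) (d := d)) := continuous_quotient_mk'

theorem continuous_mkPt : Continuous (mkPt (N := N) (d := d) (n := n)) := continuous_quotient_mk'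

theorem continuous_map : Continuous (PtCone.map (N := N) (d := d) (n := n)) := by
  refine Continuous.subtype_mk ?_ _
  have : Continuous (fun p : Aff (CoefIx N d ⊕ Fin (N + 1)) =>
      Aff.of (fun i => p.coord (Sum.inl i))) :=
    Aff.continuous_of_poly _ (fun k => X (Sum.inl k)) (fun x k => by simp)
  exact this.comp continuous_subtype_val

theorem continuous_forget : Continuous (forget N d n) := by
  exact Continuous.quotient_lift (s := ptSetoid N d n)
    (f := fun p => mkEnd (PtCone.map p)) (continuous_mkEnd.comp continuous_map) _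

theorem forget_mkPt (p : PtCone N d n) : forget N d n (mkPt p) = mkEnd p.map := rfl

/-- The curve `Γ ⊆ M_d^N`. -/
def Gam (hN : 2 ≤ N) (hd : 2 ≤ d) : Set (Moduli N d) :=
  closure (Set.range fun c : ℂ => mkEnd (famEnd hN hd c))

/-- The curve `Z ⊆ M_d^N[n]`. -/
def Zcomp (hN : 2 ≤ N) (hd : 2 ≤ d) (hn : 1 ≤ n) : Set (ModuliPt N d n) :=
  closure (Set.range fun c : ℂ => mkPt (famPt hN hd hn c))

theorem isCurve_mkPt (hN : 2 ≤ N) (hd : 2 ≤ d) (hn : 1 ≤ n) :
    IsCurve (fun c : ℂ => mkPt (famPt (N := N) hN hd hn c)) :=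
  (isCurve_famPt hN hd hn).comp continuous_mkPt

theorem isIrreducible_Zcomp (hN : 2 ≤ N) (hd : 2 ≤ d) (hn : 1 ≤ n) :
    IsIrreducible (Zcomp (N := N) hN hd hn) :=
  (isCurve_mkPt hN hd hn).isIrreducible_range.closure

theorem isIrreducible_Gam (hN : 2 ≤ N) (hd : 2 ≤ d) : IsIrreducible (Gam hN hd) := by
  have h1 : IsCurve (fun c : ℂ => mkEnd (famEnd hN hd c)) :=
    (isCurve_famPt (n := 1) hN hd le_rfl).comp (continuous_mkEnd.comp continuous_map)
  exact h1.isIrreducible_range.closure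

theorem Zcomp_subset (hN : 2 ≤ N) (hd : 2 ≤ d) (hn : 1 ≤ n) :
    Zcomp hN hd hn ⊆ forget N d n ⁻¹' Gam hN hd := by
  refine closure_minimal ?_ (isClosed_closure.preimage continuous_forget)
  rintro _ ⟨c, rfl⟩
  exact subset_closure ⟨c, rfl⟩

theorem twist_one (a : CoefIx N d → ℂ) :
    twist (((1 : ℂˣ) : ℂ) • (((1 : GL (Fin (N + 1)) ℂ)⁻¹ : GL (Fin (N + 1)) ℂ) : Mat N))
      ((1 : GL (Fin (N + 1)) ℂ) : Mat N) a = a :=
  (conj_iff.1 (Conj.refl a)).symm

theorem subset_Zcomp (hN : 2 ≤ N) (hd : 2 ≤ d) (hn : 1 ≤ n) {S : Set (ModuliPt N d n)}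
    (hS : IsIrreducible S) (hSΓ : S ⊆ forget N d n ⁻¹' Gam hN hd) (hZS : Zcomp hN hd hn ⊆ S) :
    S ⊆ Zcomp hN hd hn := by
  have key : mkPt ⁻¹' S ⊆ mkPt ⁻¹' (Zcomp (N := N) hN hd hn) := by
    refine subset_of_subset (W := mkPt ⁻¹' (Zcomp (N := N) hN hd hn)) (W' := mkPt ⁻¹' S) hn hd
      (isClosed_closure.preimage continuous_mkPt) (isIrreducible_preimage (isIrreducible_Zcomp hN hd hn))
      (isIrreducible_preimage hS) (Set.preimage_mono hZS) ?_ (famPt hN hd hn 0)
      (subset_closure ⟨0, rfl⟩) ?_ ?_ ?_ ?_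
    · intro p hp μ hμ
      refine ⟨PtCone.act 1 1 (Units.mk0 μ hμ) p, ?_, ?_, ?_⟩
      · have h1 : mkPt (PtCone.act 1 1 (Units.mk0 μ hμ) p) = mkPt p :=
          (Quotient.sound (PtCone.act_rel 1 1 (Units.mk0 μ hμ) p)).symm
        show mkPt (PtCone.act 1 1 (Units.mk0 μ hμ) p) ∈ Zcomp hN hd hn
        rw [h1]
        exact hp
      · exact twist_one p.map.coef
      · show ((Units.mk0 μ hμ : ℂˣ) : ℂ) • _ = _
        simp
    · rw [famPt_coef]
      funext p
      simp [famCoef]
    · rw [famPt_pt, basePt_zero]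
      exact one_ne_zero
    · rw [map_genF]
      simp only [eval_X]
      have h1 : (fun j => (famPt hN hd hn 0).coord (Sum.inl j)) = famCoef N d (0 : ℂ) := rfl
      have h2 : (fun j => (famPt hN hd hn 0).coord (Sum.inr j)) = basePt N (rootZ d n) := rfl
      rw [h1, h2, iterate_fam_basePt hN (by omega), basePt_zero]
      exact one_ne_zero
    · intro C hC p hp
      have h1 : p.map ∈ mkEnd ⁻¹' (Gam hN hd) := hSΓ hp
      have h2 : mkEnd ⁻¹' (Gam hN hd) =
          closure (mkEnd ⁻¹' (Set.range fun c : ℂ => mkEnd (famEnd hN hd c))) :=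
        isOpenMap_mk_end.preimage_closure_eq_closure_preimage continuous_mkEnd _
      rw [h2] at h1
      have hclosed : IsClosed {b : EndCone N d | eval b.coef C = 0} := by
        rw [← isOpen_compl_iff]
        exact (Aff.isOpen_basic C).preimage continuous_subtype_val
      refine closure_minimal (s := mkEnd ⁻¹' (Set.range fun c : ℂ => mkEnd (famEnd hN hd c)))
        ?_ hclosed h1
      rintro b ⟨c, hc⟩
      obtain ⟨A, l, h⟩ : (endSetoid N d) (famEnd hN hd c) b := Quotient.exact hc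
      have hb : b = EndCone.act A l (famEnd hN hd c) := EndCone.eq_act h
      have h3 := hC (PtCone.act A l 1 (famPt hN hd hn c)) (by
        show mkPt (PtCone.act A l 1 (famPt hN hd hn c)) ∈ Zcomp hN hd hn
        have h4 : mkPt (PtCone.act A l 1 (famPt hN hd hn c)) = mkPt (famPt hN hd hn c) :=
          (Quotient.sound (PtCone.act_rel A l 1 (famPt hN hd hn c))).symm
        rw [h4]
        exact subset_closure ⟨c, rfl⟩)
      show eval b.coef C = 0
      rw [hb]
      exact h3
  intro s hs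
  obtain ⟨p, rfl⟩ := Quotient.exists_rep s
  exact key hs

theorem maximal_Zcomp (hN : 2 ≤ N) (hd : 2 ≤ d) (hn : 1 ≤ n) :
    Maximal (fun S : Set (ModuliPt N d n) => IsIrreducible S ∧ S ⊆ forget N d n ⁻¹' Gam hN hd)
      (Zcomp hN hd hn) :=
  ⟨⟨isIrreducible_Zcomp hN hd hn, Zcomp_subset hN hd hn⟩,
    fun _ hS hZS => subset_Zcomp hN hd hn hS.1 hS.2 hZS⟩

end Pool.Agent.Helper27.DynMod
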