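import Mathlib

set_option autoImplicit false

open MvPolynomial

namespace Pool.Agent.Helper27.DynMod

/-! ## Affine space with the Zariski topology -/

/-- Affine space `ℂ^ι`, a type synonym of `ι → ℂ` carrying the Zariski topology. -/
def Aff (ι : Type) : Type := ι → ℂ

/-- The coordinates of a point of affine space. -/
def Aff.coord {ι : Type} (x : Aff ι) : ι → ℂ := x

/-- The Zariski topology on `ℂ^ι`: generated by the sets where a polynomial does not vanish. -/
instance Aff.zariski (ι : Type) : TopologicalSpace (Aff ι) :=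
  TopologicalSpace.generateFrom
    {U | ∃ p : MvPolynomial ι ℂ, U = {x : Aff ι | MvPolynomial.eval x.coord p ≠ 0}}

/-! ## Homogeneous polynomial maps -/

/-- Index set of the coefficients of `N+1` forms of degree `d` in `N+1` variables: a pair
`(i, s)` stands for the monomial `∏_{j ∈ s} x_j` (a multiset `s` of `d` variables) in the
`i`-th form. -/
abbrev CoefIx (N d : ℕ) : Type := Fin (N + 1) × Sym (Fin (N + 1)) d

/-- The self-map `x ↦ (F_0(x), ..., F_N(x))` of `R^{N+1}` given by the `N+1` forms of degree `d`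
with coefficient vector `a`. -/
def formMap {R : Type*} [CommSemiring R] {N d : ℕ} (a : CoefIx N d → R) (x : Fin (N + 1) → R) :
    Fin (N + 1) → R :=
  fun i => ∑ s : Sym (Fin (N + 1)) d, a (i, s) * ((s : Multiset (Fin (N + 1))).map x).prod

/-- The forms with coefficient vector `a` have no common zero in `ℙ^N`. -/
def IsEndo {N d : ℕ} (a : CoefIx N d → ℂ) : Prop :=
  ∀ x : Fin (N + 1) → ℂ, formMap a x = 0 → x = 0

/-- The affine cone over `End_d^N ⊆ ℙ^ν`: the coefficient vectors of `(N+1)`-tuples of forms of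
degree `d` without common zero, with the Zariski topology. -/
def EndCone (N d : ℕ) : Type := {a : Aff (CoefIx N d) // IsEndo a.coord}

instance (N d : ℕ) : TopologicalSpace (EndCone N d) :=
  inferInstanceAs (TopologicalSpace {a : Aff (CoefIx N d) // IsEndo a.coord})

/-- The coefficient vector of a point of the cone over `End_d^N`. -/
def EndCone.coef {N d : ℕ} (a : EndCone N d) : CoefIx N d → ℂ := a.1.coord

/-- `b` is a coefficient vector of `l • (A⁻¹ ∘ f_a ∘ A)`, for `A` in `GL_{N+1}(ℂ)` and `l ≠ 0`. -/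
def Conj {N d : ℕ} (A : GL (Fin (N + 1)) ℂ) (l : ℂˣ) (a b : CoefIx N d → ℂ) : Prop :=
  ∀ z : Fin (N + 1) → ℂ, formMap b z =
    (l : ℂ) • ((A⁻¹ : GL (Fin (N + 1)) ℂ) : Matrix (Fin (N + 1)) (Fin (N + 1)) ℂ).mulVec
      (formMap a ((A : Matrix (Fin (N + 1)) (Fin (N + 1)) ℂ).mulVec z))

theorem Conj.refl {N d : ℕ} (a : CoefIx N d → ℂ) : Conj 1 1 a a := by
  intro z; simp

theorem Conj.symm {N d : ℕ} {A : GL (Fin (N + 1)) ℂ} {l : ℂˣ} {a b : CoefIx N d → ℂ}
    (h : Conj A l a b) : Conj A⁻¹ l⁻¹ b a := by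
  intro z
  rw [h]
  simp only [inv_inv, Matrix.mulVec_smul, Matrix.mulVec_mulVec, ← Units.val_mul, mul_inv_cancel]
  simp [smul_smul]

theorem Conj.trans {N d : ℕ} {A B : GL (Fin (N + 1)) ℂ} {l m : ℂˣ} {a b c : CoefIx N d → ℂ}
    (h : Conj A l a b) (h' : Conj B m b c) : Conj (A * B) (l * m) a c := by
  intro z
  rw [h', h]
  simp only [Matrix.mulVec_smul, Matrix.mulVec_mulVec, mul_inv_rev, Units.val_mul, smul_smul,
    mul_comm]

/-- Two points of the cone over `End_d^N` are equivalent when the endomorphisms of `ℙ^N` they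
define are conjugate under `PGL_{N+1}(ℂ)`. -/
instance endSetoid (N d : ℕ) : Setoid (EndCone N d) where
  r a b := ∃ (A : GL (Fin (N + 1)) ℂ) (l : ℂˣ), Conj A l a.coef b.coef
  iseqv :=
    { refl := fun a => ⟨1, 1, Conj.refl a.coef⟩
      symm := fun ⟨A, l, h⟩ => ⟨A⁻¹, l⁻¹, h.symm⟩
      trans := fun ⟨A, l, h⟩ ⟨B, m, h'⟩ => ⟨A * B, l * m, h.trans h'⟩ }

/-- The moduli space `M_d^N = End_d^N / PGL_{N+1}` (set of orbits; topology: quotient topology). -/
def Moduli (N d : ℕ) : Type := Quotient (endSetoid N d)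

instance (N d : ℕ) : TopologicalSpace (Moduli N d) :=
  inferInstanceAs (TopologicalSpace (Quotient (endSetoid N d)))

/-- The point of `ℙ^N` with homogeneous coordinates `x` has exact period `n` under the
endomorphism of `ℙ^N` induced by `F`. -/
def HasExactPeriod {N : ℕ} (F : (Fin (N + 1) → ℂ) → (Fin (N + 1) → ℂ)) (x : Fin (N + 1) → ℂ)
    (n : ℕ) : Prop :=
  x ≠ 0 ∧ (∃ l : ℂ, F^[n] x = l • x) ∧ ∀ k : ℕ, 0 < k → k < n → ¬ ∃ l : ℂ, F^[k] x = l • x

/-- The bihomogeneous cone over `End_d^N[n] ⊆ End_d^N × ℙ^N`: pairs (coefficient vector,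
homogeneous coordinates of a point of exact period `n`), with the Zariski topology. -/
def PtCone (N d n : ℕ) : Type :=
  {p : Aff (CoefIx N d ⊕ Fin (N + 1)) // IsEndo (fun i => p.coord (Sum.inl i)) ∧
    HasExactPeriod (formMap (fun i => p.coord (Sum.inl i))) (fun j => p.coord (Sum.inr j)) n}

instance (N d n : ℕ) : TopologicalSpace (PtCone N d n) :=
  inferInstanceAs (TopologicalSpace {p : Aff (CoefIx N d ⊕ Fin (N + 1)) //
    IsEndo (fun i => p.coord (Sum.inl i)) ∧
    HasExactPeriod (formMap (fun i => p.coord (Sum.inl i))) (fun j => p.coord (Sum.inr j)) n})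

/-- All the coordinates of a point of the cone over `End_d^N[n]`. -/
def PtCone.coord {N d n : ℕ} (p : PtCone N d n) : CoefIx N d ⊕ Fin (N + 1) → ℂ := p.1.coord

/-- The endomorphism part of a point of the cone over `End_d^N[n]`. -/
def PtCone.map {N d n : ℕ} (p : PtCone N d n) : EndCone N d :=
  ⟨fun i => p.coord (Sum.inl i), p.2.1⟩

/-- The homogeneous coordinates of the marked point. -/
def PtCone.pt {N d n : ℕ} (p : PtCone N d n) : Fin (N + 1) → ℂ := fun j => p.coord (Sum.inr j)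

/-- Two points of the cone over `End_d^N[n]` are equivalent when the pairs (endomorphism, point)
are in the same `PGL_{N+1}(ℂ)`-orbit for `(f,P)^φ = (φ⁻¹ ∘ f ∘ φ, φ⁻¹(P))`. -/
instance ptSetoid (N d n : ℕ) : Setoid (PtCone N d n) where
  r p q := ∃ (A : GL (Fin (N + 1)) ℂ) (l m : ℂˣ), Conj A l p.map.coef q.map.coef ∧
    q.pt = (m : ℂ) • ((A⁻¹ : GL (Fin (N + 1)) ℂ) : Matrix (Fin (N + 1)) (Fin (N + 1)) ℂ).mulVec p.pt
  iseqv :=
    { refl := fun a => ⟨1, 1, 1, Conj.refl a.map.coef, by simp⟩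
      symm := by
        rintro p q ⟨A, l, m, h, h'⟩
        refine ⟨A⁻¹, l⁻¹, m⁻¹, h.symm, ?_⟩
        rw [h', inv_inv, Matrix.mulVec_smul, Matrix.mulVec_mulVec, ← Units.val_mul, mul_inv_cancel]
        simp [smul_smul]
      trans := by
        rintro p q r ⟨A, l, m, h, h'⟩ ⟨B, l', m', k, k'⟩
        refine ⟨A * B, l * l', m * m', h.trans k, ?_⟩
        rw [k', h']
        simp only [Matrix.mulVec_smul, Matrix.mulVec_mulVec, mul_inv_rev, Units.val_mul, smul_smul,
          mul_comm] }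

/-- The moduli space `M_d^N[n] = End_d^N[n] / PGL_{N+1}` (set of orbits; quotient topology). -/
def ModuliPt (N d n : ℕ) : Type := Quotient (ptSetoid N d n)

instance (N d n : ℕ) : TopologicalSpace (ModuliPt N d n) :=
  inferInstanceAs (TopologicalSpace (Quotient (ptSetoid N d n)))

/-- The forgetful map `i_n : M_d^N[n] → M_d^N` induced by `(f,P) ↦ f`. -/
def forget (N d n : ℕ) : ModuliPt N d n → Moduli N d :=
  Quotient.map PtCone.map (fun _ _ ⟨A, l, _, h, _⟩ => ⟨A, l, h⟩)

/-! ## Regular functions and function fields -/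

/-- A complex valued function on the cone over `End_d^N[n]` is regular at `x` if near `x` it is a
quotient of two polynomials. -/
def RegularAtCone {N d n : ℕ} (f : PtCone N d n → ℂ) (x : PtCone N d n) : Prop :=
  ∃ U : Set (PtCone N d n), IsOpen U ∧ x ∈ U ∧
    ∃ p q : MvPolynomial (CoefIx N d ⊕ Fin (N + 1)) ℂ,
      ∀ y ∈ U, MvPolynomial.eval y.coord q ≠ 0 ∧
        f y = MvPolynomial.eval y.coord p / MvPolynomial.eval y.coord q

/-- A complex valued function on `M_d^N[n]` is regular at `m` if, over a neighbourhood of `m`, its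
pull back to the cone over `End_d^N[n]` is regular. -/
def RegularAt {N d n : ℕ} (f : ModuliPt N d n → ℂ) (m : ModuliPt N d n) : Prop :=
  ∃ U : Set (ModuliPt N d n), IsOpen U ∧ m ∈ U ∧
    ∀ x : PtCone N d n, (Quotient.mk (ptSetoid N d n) x : ModuliPt N d n) ∈ U →
      RegularAtCone (fun y => f (Quotient.mk (ptSetoid N d n) y)) x

/-- A complex valued function on a subset `Z` of `M_d^N[n]` is regular at `z` if near `z` it is the
restriction of a function on `M_d^N[n]` that is regular at `z`. -/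
def RegularOn {N d n : ℕ} (Z : Set (ModuliPt N d n)) (f : Z → ℂ) (z : Z) : Prop :=
  ∃ g : ModuliPt N d n → ℂ, RegularAt g z ∧
    ∃ U : Set (ModuliPt N d n), IsOpen U ∧ (z : ModuliPt N d n) ∈ U ∧
      ∀ w : Z, (w : ModuliPt N d n) ∈ U → f w = g w

/-- The filter generated by the nonempty open sets (when `X` is irreducible, its members are the
sets that contain a nonempty open set). -/
def generic (X : Type) [TopologicalSpace X] : Filter X :=
  ⨅ U ∈ {U : Set X | IsOpen U ∧ U.Nonempty}, Filter.principal U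

theorem RegularAtCone.const {N d n : ℕ} (c : ℂ) (x : PtCone N d n) :
    RegularAtCone (fun _ => c) x :=
  ⟨Set.univ, isOpen_univ, trivial, MvPolynomial.C c, 1, fun y _ => by simp⟩

theorem RegularAtCone.add {N d n : ℕ} {f g : PtCone N d n → ℂ} {x : PtCone N d n}
    (hf : RegularAtCone f x) (hg : RegularAtCone g x) : RegularAtCone (fun y => f y + g y) x := by
  obtain ⟨U, hU, hx, p, q, h⟩ := hf
  obtain ⟨V, hV, hx', p', q', h'⟩ := hg
  refine ⟨U ∩ V, hU.inter hV, ⟨hx, hx'⟩, p * q' + p' * q, q * q', fun y hy => ?_⟩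
  obtain ⟨h1, h2⟩ := h y hy.1
  obtain ⟨h3, h4⟩ := h' y hy.2
  refine ⟨by simpa using ⟨h1, h3⟩, ?_⟩
  simp only [h2, h4, map_add, map_mul]
  field_simp

theorem RegularAtCone.mul {N d n : ℕ} {f g : PtCone N d n → ℂ} {x : PtCone N d n}
    (hf : RegularAtCone f x) (hg : RegularAtCone g x) : RegularAtCone (fun y => f y * g y) x := by
  obtain ⟨U, hU, hx, p, q, h⟩ := hf
  obtain ⟨V, hV, hx', p', q', h'⟩ := hg
  refine ⟨U ∩ V, hU.inter hV, ⟨hx, hx'⟩, p * p', q * q', fun y hy => ?_⟩
  obtain ⟨h1, h2⟩ := h y hy.1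
  obtain ⟨h3, h4⟩ := h' y hy.2
  refine ⟨by simpa using ⟨h1, h3⟩, ?_⟩
  simp only [h2, h4, map_mul]
  field_simp

theorem RegularAt.const {N d n : ℕ} (c : ℂ) (m : ModuliPt N d n) : RegularAt (fun _ => c) m :=
  ⟨Set.univ, isOpen_univ, trivial, fun x _ => RegularAtCone.const c x⟩

theorem RegularAt.add {N d n : ℕ} {f g : ModuliPt N d n → ℂ} {m : ModuliPt N d n}
    (hf : RegularAt f m) (hg : RegularAt g m) : RegularAt (fun y => f y + g y) m := by
  obtain ⟨U, hU, hx, h⟩ := hf
  obtain ⟨V, hV, hx', h'⟩ := hg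
  exact ⟨U ∩ V, hU.inter hV, ⟨hx, hx'⟩, fun x hxx => (h x hxx.1).add (h' x hxx.2)⟩

theorem RegularAt.mul {N d n : ℕ} {f g : ModuliPt N d n → ℂ} {m : ModuliPt N d n}
    (hf : RegularAt f m) (hg : RegularAt g m) : RegularAt (fun y => f y * g y) m := by
  obtain ⟨U, hU, hx, h⟩ := hf
  obtain ⟨V, hV, hx', h'⟩ := hg
  exact ⟨U ∩ V, hU.inter hV, ⟨hx, hx'⟩, fun x hxx => (h x hxx.1).mul (h' x hxx.2)⟩

theorem RegularOn.const {N d n : ℕ} {Z : Set (ModuliPt N d n)} (c : ℂ) (z : Z) :
    RegularOn Z (fun _ => c) z :=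
  ⟨fun _ => c, RegularAt.const c _, Set.univ, isOpen_univ, trivial, fun _ _ => rfl⟩

theorem RegularOn.add {N d n : ℕ} {Z : Set (ModuliPt N d n)} {f g : Z → ℂ} {z : Z}
    (hf : RegularOn Z f z) (hg : RegularOn Z g z) : RegularOn Z (fun y => f y + g y) z := by
  obtain ⟨F, hF, U, hU, hz, h⟩ := hf
  obtain ⟨G, hG, V, hV, hz', h'⟩ := hg
  exact ⟨_, hF.add hG, U ∩ V, hU.inter hV, ⟨hz, hz'⟩, fun w hw => by
    simp only [h w hw.1, h' w hw.2]⟩

theorem RegularOn.mul {N d n : ℕ} {Z : Set (ModuliPt N d n)} {f g : Z → ℂ} {z : Z}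
    (hf : RegularOn Z f z) (hg : RegularOn Z g z) : RegularOn Z (fun y => f y * g y) z := by
  obtain ⟨F, hF, U, hU, hz, h⟩ := hf
  obtain ⟨G, hG, V, hV, hz', h'⟩ := hg
  exact ⟨_, hF.mul hG, U ∩ V, hU.inter hV, ⟨hz, hz'⟩, fun w hw => by
    simp only [h w hw.1, h' w hw.2]⟩

theorem rationalFunctions_mul {N d n : ℕ} {Z : Set (ModuliPt N d n)} {f g : Z → ℂ}
    (hf : ∀ᶠ z in generic Z, RegularOn Z f z) (hg : ∀ᶠ z in generic Z, RegularOn Z g z) :
    ∀ᶠ z in generic Z, RegularOn Z (f * g) z := by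
  filter_upwards [hf, hg] with z h1 h2 using h1.mul h2

theorem rationalFunctions_add {N d n : ℕ} {Z : Set (ModuliPt N d n)} {f g : Z → ℂ}
    (hf : ∀ᶠ z in generic Z, RegularOn Z f z) (hg : ∀ᶠ z in generic Z, RegularOn Z g z) :
    ∀ᶠ z in generic Z, RegularOn Z (f + g) z := by
  filter_upwards [hf, hg] with z h1 h2 using h1.add h2

theorem rationalFunctions_const {N d n : ℕ} {Z : Set (ModuliPt N d n)} (c : ℂ) :
    ∀ᶠ z in generic Z, RegularOn Z (algebraMap ℂ (Z → ℂ) c) z :=
  Filter.Eventually.of_forall fun z => RegularOn.const c z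

/-- The functions on `Z` that are regular on a nonempty open subset of `Z` (their values elsewhere
are arbitrary). -/
def rationalFunctions {N d n : ℕ} (Z : Set (ModuliPt N d n)) : Subalgebra ℂ (Z → ℂ) where
  carrier := {f | ∀ᶠ z in generic Z, RegularOn Z f z}
  mul_mem' := rationalFunctions_mul
  add_mem' := rationalFunctions_add
  algebraMap_mem' := rationalFunctions_const

/-- `K` is the function field of the irreducible subvariety `Z` of `M_d^N[n]`: a quotient of the
algebra of the functions that are regular on a nonempty open subset of `Z`, two of them being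
identified exactly when they agree on a nonempty open subset. -/
def IsFunctionField {N d n : ℕ} (Z : Set (ModuliPt N d n)) (K : Type) [Field K] [Algebra ℂ K] :
    Prop :=
  ∃ φ : rationalFunctions Z →ₐ[ℂ] K, Function.Surjective φ ∧
    ∀ f, φ f = 0 ↔ ∀ᶠ z in generic Z, f.1 z = 0

end Pool.Agent.Helper27.DynMod
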