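import Pool.Agent.Helper27.DynMod.Maximal

set_option autoImplicit false

open MvPolynomial

namespace Pool.Agent.Helper27.DynMod

variable {N d n : ℕ}

/-- the coefficient vector of `(0, ..., 0, x_N x_0^{d-1})` -/
noncomputable def extraCoef (R : Type*) [CommSemiring R] (N d : ℕ) : CoefIx N d → R :=
  fun p => if p.1 = Fin.last N ∧
    (p.2 : Multiset (Fin (N + 1))) = Fin.last N ::ₘ Multiset.replicate (d - 1) 0 then 1 else 0

/-- the coefficient vector of `(x_0^d, ..., x_{N-1}^d, x_N^d + c x_N x_0^{d-1})` -/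
noncomputable def famCoef {R : Type*} [CommSemiring R] (N d : ℕ) (c : R) : CoefIx N d → R :=
  fun p => powCoef R N d p + c * extraCoef R N d p

theorem formMap_pow {R : Type*} [CommSemiring R] (x : Fin (N + 1) → R) (i : Fin (N + 1)) :
    formMap (powCoef R N d) x i = x i ^ d := by
  simp only [formMap, powCoef]
  set s0 : Sym (Fin (N + 1)) d := ⟨Multiset.replicate d i, by simp⟩ with hs0
  have hs : (s0 : Multiset (Fin (N + 1))) = Multiset.replicate d i := rfl
  rw [Finset.sum_eq_single s0]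
  · rw [hs]
    simp
  · intro s _ hne
    rw [if_neg, zero_mul]
    intro h
    exact hne (Sym.coe_injective (h.trans hs.symm))
  · simp

theorem formMap_extra {R : Type*} [CommSemiring R] (hd : 1 ≤ d) (x : Fin (N + 1) → R)
    (i : Fin (N + 1)) :
    formMap (extraCoef R N d) x i = if i = Fin.last N then x (Fin.last N) * x 0 ^ (d - 1) else 0 := by
  simp only [formMap, extraCoef]
  have hcard : Multiset.card (Fin.last N ::ₘ Multiset.replicate (d - 1) (0 : Fin (N + 1))) = d := by
    simp; omega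
  set s0 : Sym (Fin (N + 1)) d := ⟨Fin.last N ::ₘ Multiset.replicate (d - 1) 0, hcard⟩ with hs0
  have hs : (s0 : Multiset (Fin (N + 1))) = Fin.last N ::ₘ Multiset.replicate (d - 1) 0 := rfl
  split_ifs with h
  · rw [Finset.sum_eq_single s0]
    · rw [hs]
      simp [h]
    · intro s _ hne
      rw [if_neg, zero_mul]
      rintro ⟨-, h⟩
      exact hne (Sym.coe_injective (h.trans hs.symm))
    · simp
  · refine Finset.sum_eq_zero fun s _ => ?_
    rw [if_neg (fun h' => h h'.1), zero_mul]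

theorem formMap_fam {R : Type*} [CommSemiring R] (hd : 1 ≤ d) (c : R) (x : Fin (N + 1) → R)
    (i : Fin (N + 1)) :
    formMap (famCoef N d c) x i = x i ^ d +
      if i = Fin.last N then c * (x (Fin.last N) * x 0 ^ (d - 1)) else 0 := by
  have h1 : formMap (famCoef N d c) x i =
      formMap (powCoef R N d) x i + c * formMap (extraCoef R N d) x i := by
    simp only [formMap, famCoef, add_mul, Finset.sum_add_distrib, Finset.mul_sum, mul_assoc]
  rw [h1, formMap_pow, formMap_extra hd]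
  split_ifs <;> simp

/-- the point `[1 : ζ : 0 : ... : 0]` -/
def basePt {R : Type*} [CommSemiring R] (N : ℕ) (ζ : R) : Fin (N + 1) → R :=
  fun i => if (i : ℕ) = 0 then 1 else if (i : ℕ) = 1 then ζ else 0

theorem basePt_last {R : Type*} [CommSemiring R] (hN : 2 ≤ N) (ζ : R) :
    basePt N ζ (Fin.last N) = 0 := by
  simp only [basePt, Fin.val_last]
  rw [if_neg (by omega), if_neg (by omega)]

theorem basePt_zero {R : Type*} [CommSemiring R] (ζ : R) :
    basePt N ζ 0 = 1 := by
  simp [basePt]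

theorem formMap_fam_basePt {R : Type*} [CommSemiring R] (hN : 2 ≤ N) (hd : 1 ≤ d) (c ζ : R) :
    formMap (famCoef N d c) (basePt N ζ) = basePt N (ζ ^ d) := by
  funext i
  rw [formMap_fam hd, basePt_last hN]
  have h1 : (if i = Fin.last N then c * (0 * basePt N ζ 0 ^ (d - 1)) else 0) = 0 := by simp
  rw [h1, add_zero]
  simp only [basePt]
  split_ifs
  · simp
  · rfl
  · rw [zero_pow (by omega)]

theorem iterate_fam_basePt {R : Type*} [CommSemiring R] (hN : 2 ≤ N) (hd : 1 ≤ d) (c ζ : R)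
    (k : ℕ) : (formMap (famCoef N d c))^[k] (basePt N ζ) = basePt N (ζ ^ d ^ k) := by
  induction k generalizing ζ with
  | zero => simp
  | succ k ih =>
    rw [Function.iterate_succ_apply, formMap_fam_basePt hN hd, ih, ← pow_mul]
    congr 2
    ring

theorem isEndo_fam (hN : 1 ≤ N) (hd : 2 ≤ d) (c : ℂ) : IsEndo (famCoef N d c) := by
  intro x hx
  have h1 : ∀ i, i ≠ Fin.last N → x i = 0 := by
    intro i hi
    have := congrFun hx i
    rw [formMap_fam (by omega), if_neg hi, add_zero] at this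
    exact (pow_eq_zero_iff (by omega)).1 this
  have h0 : x 0 = 0 := h1 0 (by
    intro h
    have := congrArg Fin.val h
    simp at this
    omega)
  funext i
  by_cases hi : i = Fin.last N
  · subst hi
    have := congrFun hx (Fin.last N)
    rw [formMap_fam (by omega), if_pos rfl, h0, zero_pow (by omega), mul_zero, mul_zero,
      add_zero] at this
    exact (pow_eq_zero_iff (by omega)).1 this
  · exact h1 i hi

theorem hasExactPeriod_fam (hN : 2 ≤ N) (hd : 2 ≤ d) (hn : 1 ≤ n) (c : ℂ) {ζ : ℂ}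
    (hζ : IsPrimitiveRoot ζ (d ^ n - 1)) :
    HasExactPeriod (formMap (famCoef N d c)) (basePt N ζ) n := by
  have hdn : 1 ≤ d ^ n := Nat.one_le_pow _ _ (by omega)
  have hζn : ζ ^ d ^ n = ζ := by
    have : d ^ n = (d ^ n - 1) + 1 := by omega
    rw [this, pow_succ, hζ.pow_eq_one, one_mul]
  refine ⟨?_, ⟨1, ?_⟩, ?_⟩
  · intro h
    have := congrFun h 0
    rw [basePt_zero] at this
    exact one_ne_zero this
  · rw [iterate_fam_basePt hN (by omega), hζn, one_smul]
  · rintro k hk hkn ⟨l, hl⟩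
    rw [iterate_fam_basePt hN (by omega)] at hl
    have h0 := congrFun hl 0
    rw [Pi.smul_apply, basePt_zero, basePt_zero, smul_eq_mul, mul_one] at h0
    have h1 := congrFun hl ⟨1, by omega⟩
    rw [← h0, one_smul] at h1
    simp only [basePt] at h1
    simp at h1
    have hζ0 : ζ ≠ 0 := by
      refine (hζ.isUnit ?_).ne_zero
      have : 2 ^ 1 ≤ d ^ n := (Nat.pow_le_pow_left hd 1).trans (Nat.pow_le_pow_right (by omega) hn)
      omega
    have hdk : 2 ≤ d ^ k := (by
      have : 2 ^ 1 ≤ d ^ k := (Nat.pow_le_pow_left hd 1).trans (Nat.pow_le_pow_right (by omega) hk)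
      omega)
    have h2 : ζ ^ (d ^ k - 1) = 1 := by
      have h3 : d ^ k = (d ^ k - 1) + 1 := by omega
      rw [h3, pow_succ] at h1
      exact mul_right_cancel₀ hζ0 (h1.trans (one_mul ζ).symm)
    have h4 := hζ.dvd_of_pow_eq_one _ h2
    have h5 := Nat.le_of_dvd (by omega) h4
    have h6 : d ^ k < d ^ n := Nat.pow_lt_pow_right (by omega) hkn
    omega

/-- a primitive root of unity of order `d^n - 1` -/
noncomputable def rootZ (d n : ℕ) : ℂ := Complex.exp (2 * Real.pi * Complex.I / (d ^ n - 1 : ℕ))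

theorem rootZ_spec (hd : 2 ≤ d) (hn : 1 ≤ n) : IsPrimitiveRoot (rootZ d n) (d ^ n - 1) := by
  refine Complex.isPrimitiveRoot_exp _ ?_
  have : 2 ^ 1 ≤ d ^ n := (Nat.pow_le_pow_left hd 1).trans (Nat.pow_le_pow_right (by omega) hn)
  omega

/-- the family of endomorphisms -/
noncomputable def famEnd (hN : 2 ≤ N) (hd : 2 ≤ d) (c : ℂ) : EndCone N d :=
  ⟨Aff.of (famCoef N d c), isEndo_fam (by omega) hd c⟩

/-- the family of endomorphisms with a marked point -/
noncomputable def famPt (hN : 2 ≤ N) (hd : 2 ≤ d) (hn : 1 ≤ n) (c : ℂ) : PtCone N d n :=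
  ⟨Aff.of (Sum.elim (famCoef N d c) (basePt N (rootZ d n))), isEndo_fam (by omega) hd c,
    hasExactPeriod_fam hN hd hn c (rootZ_spec hd hn)⟩

theorem famPt_map (hN : 2 ≤ N) (hd : 2 ≤ d) (hn : 1 ≤ n) (c : ℂ) :
    (famPt hN hd hn c).map = famEnd hN hd c := rfl

theorem famPt_coef (hN : 2 ≤ N) (hd : 2 ≤ d) (hn : 1 ≤ n) (c : ℂ) :
    (famPt hN hd hn c).map.coef = famCoef N d c := rfl

theorem famPt_pt (hN : 2 ≤ N) (hd : 2 ≤ d) (hn : 1 ≤ n) (c : ℂ) :
    (famPt hN hd hn c).pt = basePt N (rootZ d n) := rfl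

/-! ## Curves -/

/-- `γ` is continuous for the cofinite topology on `ℂ`. -/
def IsCurve {Y : Type*} [TopologicalSpace Y] (γ : ℂ → Y) : Prop :=
  ∀ U : Set Y, IsOpen U → (γ ⁻¹' U).Nonempty → γ ⁻¹' U ∈ Filter.cofinite

theorem IsCurve.comp {Y Z : Type*} [TopologicalSpace Y] [TopologicalSpace Z] {γ : ℂ → Y}
    (h : IsCurve γ) {f : Y → Z} (hf : Continuous f) : IsCurve (f ∘ γ) :=
  fun U hU hne => h (f ⁻¹' U) (hU.preimage hf) hne

theorem IsCurve.isIrreducible_range {Y : Type*} [TopologicalSpace Y] {γ : ℂ → Y}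
    (h : IsCurve γ) : IsIrreducible (Set.range γ) := by
  refine ⟨⟨γ 0, 0, rfl⟩, ?_⟩
  rintro U V hU hV ⟨_, ⟨x, rfl⟩, hx⟩ ⟨_, ⟨y, rfl⟩, hy⟩
  have h1 := h U hU ⟨x, hx⟩
  have h2 := h V hV ⟨y, hy⟩
  have h3 := Filter.inter_mem h1 h2
  obtain ⟨z, hz⟩ := Filter.NeBot.nonempty_of_mem inferInstance h3
  exact ⟨γ z, ⟨z, rfl⟩, hz.1, hz.2⟩

/-- the coordinates of `famPt` as polynomials in `c` -/
noncomputable def famPoly (N d n : ℕ) : CoefIx N d ⊕ Fin (N + 1) → Polynomial ℂ :=
  Sum.elim (fun p => Polynomial.C (powCoef ℂ N d p) + Polynomial.X *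
    Polynomial.C (extraCoef ℂ N d p)) (fun j => Polynomial.C (basePt N (rootZ d n) j))

theorem eval_famPt (hN : 2 ≤ N) (hd : 2 ≤ d) (hn : 1 ≤ n) (c : ℂ) (g : BigRing N d) :
    eval (famPt hN hd hn c).coord g = Polynomial.eval c (aeval (famPoly N d n) g) := by
  have h1 : Polynomial.eval c (aeval (famPoly N d n) g) =
      eval₂ (RingHom.id ℂ) (fun i => Polynomial.eval c (famPoly N d n i)) g := by
    rw [← Polynomial.coe_evalRingHom, aeval_def, hom_eval₂]
    congr 1
    ext; simp
  rw [h1]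
  have h2 : (famPt hN hd hn c).coord = fun i => Polynomial.eval c (famPoly N d n i) := by
    funext i
    rcases i with i | i
    · simp only [famPoly, Sum.elim_inl, Polynomial.eval_add, Polynomial.eval_mul,
        Polynomial.eval_C, Polynomial.eval_X]
      rfl
    · simp only [famPoly, Sum.elim_inr, Polynomial.eval_C]
      rfl
  rw [h2]
  rfl

theorem isCurve_famPt (hN : 2 ≤ N) (hd : 2 ≤ d) (hn : 1 ≤ n) :
    IsCurve (famPt (N := N) (d := d) (n := n) hN hd hn) := by
  rintro U hU ⟨c0, hc0⟩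
  by_cases hUc : famPt hN hd hn c0 ∈ Uᶜ
  · exact absurd hc0 hUc
  obtain ⟨g, h1, h2⟩ := PtCone.exists_poly_of_isClosed hU.isClosed_compl hUc
  rw [eval_famPt] at h1
  have hne : aeval (famPoly N d n) g ≠ 0 := by
    intro h
    rw [h, Polynomial.eval_zero] at h1
    exact h1 rfl
  rw [Filter.mem_cofinite]
  refine (Polynomial.finite_setOfPred_isRoot hne).subset ?_
  intro c hc
  have := h2 (famPt hN hd hn c) hc
  rw [eval_famPt] at this
  exact this

end Pool.Agent.Helper27.DynMod
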