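import Pool.Agent.Helper27.DynMod.TraceFn

set_option autoImplicit false

open MvPolynomial

namespace Pool.Agent.Helper27.DynMod

variable {N d n : ℕ}

/-- The functions that vanish on a nonempty open subset of `Z`. -/
def negligible {N d n : ℕ} (Z : Set (ModuliPt N d n)) : Ideal (rationalFunctions Z) where
  carrier := {f | ∀ᶠ z in generic Z, f.1 z = 0}
  add_mem' hf hg := by
    filter_upwards [hf, hg] with z h1 h2
    simp [h1, h2]
  zero_mem' := Filter.Eventually.of_forall fun z => rfl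
  smul_mem' c f hf := by
    filter_upwards [hf] with z h1
    simp [h1]

/-! ## The generic filter -/

theorem mem_generic_of_subset {X : Type} [TopologicalSpace X] {S U : Set X} (hU : IsOpen U)
    (hne : U.Nonempty) (h : U ⊆ S) : S ∈ generic X :=
  Filter.mem_iInf_of_mem U (Filter.mem_iInf_of_mem ⟨hU, hne⟩ h)

theorem mem_generic {X : Type} [TopologicalSpace X] [IrreducibleSpace X] {S : Set X} :
    S ∈ generic X ↔ ∃ U : Set X, IsOpen U ∧ U.Nonempty ∧ U ⊆ S := by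
  constructor
  · intro h
    have hdir : DirectedOn ((fun U : Set X => Filter.principal U) ⁻¹'o (· ≥ ·))
        {U : Set X | IsOpen U ∧ U.Nonempty} := by
      rintro U ⟨hU, hU'⟩ V ⟨hV, hV'⟩
      refine ⟨U ∩ V, ⟨hU.inter hV, nonempty_preirreducible_inter hU hV hU' hV'⟩, ?_, ?_⟩
      · exact Filter.principal_mono.2 Set.inter_subset_left
      · exact Filter.principal_mono.2 Set.inter_subset_right
    obtain ⟨x⟩ := (inferInstance : IrreducibleSpace X).toNonempty
    have hne : {U : Set X | IsOpen U ∧ U.Nonempty}.Nonempty := ⟨Set.univ, isOpen_univ, x, trivial⟩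
    obtain ⟨U, hU, hUS⟩ := (Filter.mem_biInf_of_directed hdir hne).1 h
    exact ⟨U, hU.1, hU.2, hUS⟩
  · rintro ⟨U, hU, hne, h⟩
    exact mem_generic_of_subset hU hne h

/-! ## Nonvanishing loci and inverses of regular functions -/

theorem RegularAtCone.inv {f : PtCone N d n → ℂ} {x : PtCone N d n} (hf : RegularAtCone f x)
    (hx : f x ≠ 0) : RegularAtCone (fun y => (f y)⁻¹) x := by
  obtain ⟨U, hU, hxU, p, q, h⟩ := hf
  refine ⟨U ∩ {y | eval y.coord p ≠ 0}, hU.inter (PtCone.isOpen_ne p), ⟨hxU, ?_⟩, q, p,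
    fun y hy => ⟨hy.2, ?_⟩⟩
  · intro h0
    apply hx
    rw [(h x hxU).2, h0, zero_div]
  · show (f y)⁻¹ = _
    rw [(h y hy.1).2, inv_div]

theorem isOpen_ne_of_regular {g : ModuliPt N d n → ℂ} {U : Set (ModuliPt N d n)} (hU : IsOpen U)
    (h : ∀ x : PtCone N d n, mkPt x ∈ U → RegularAtCone (fun y => g (mkPt y)) x) :
    IsOpen {m | m ∈ U ∧ g m ≠ 0} := by
  have h1 : IsOpen (mkPt ⁻¹' {m : ModuliPt N d n | m ∈ U ∧ g m ≠ 0}) := by
    rw [isOpen_iff_forall_mem_open]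
    rintro x ⟨hxU, hgx⟩
    obtain ⟨O, hO, hxO, p, q, hpq⟩ := h x hxU
    refine ⟨O ∩ {y | eval y.coord p ≠ 0} ∩ mkPt ⁻¹' U, ?_,
      (hO.inter (PtCone.isOpen_ne p)).inter (hU.preimage continuous_mkPt), ⟨⟨hxO, ?_⟩, hxU⟩⟩
    · rintro y ⟨⟨hyO, hyp⟩, hyU⟩
      refine ⟨hyU, ?_⟩
      obtain ⟨h2, h3⟩ := hpq y hyO
      show g (mkPt y) ≠ 0
      have h3' : g (mkPt y) = _ := h3
      rw [h3']
      exact div_ne_zero hyp h2
    · intro h0
      apply hgx
      have h3 : g (mkPt x) = _ := (hpq x hxO).2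
      rw [h3, h0, zero_div]
  exact h1

theorem RegularAt.inv {g : ModuliPt N d n → ℂ} {m : ModuliPt N d n} (hg : RegularAt g m)
    (hm : g m ≠ 0) : RegularAt (fun y => (g y)⁻¹) m := by
  obtain ⟨U, hU, hmU, h⟩ := hg
  refine ⟨{m | m ∈ U ∧ g m ≠ 0}, isOpen_ne_of_regular hU h, ⟨hmU, hm⟩, fun x hx => ?_⟩
  exact (h x hx.1).inv hx.2

theorem RegularOn.inv {Z : Set (ModuliPt N d n)} {f : Z → ℂ} {z : Z} (hf : RegularOn Z f z)
    (hz : f z ≠ 0) : RegularOn Z (fun y => (f y)⁻¹) z := by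
  obtain ⟨g, hg, U, hU, hzU, h⟩ := hf
  refine ⟨fun y => (g y)⁻¹, hg.inv (by rw [← h z hzU]; exact hz), U, hU, hzU, fun w hw => ?_⟩
  simp only [h w hw]

theorem RegularOn.exists_ne {Z : Set (ModuliPt N d n)} {f : Z → ℂ} {z : Z}
    (hf : RegularOn Z f z) (hz : f z ≠ 0) :
    ∃ U : Set Z, IsOpen U ∧ z ∈ U ∧ ∀ w ∈ U, f w ≠ 0 := by
  obtain ⟨g, hg, U, hU, hzU, h⟩ := hf
  have hgz : g z ≠ 0 := by rw [← h z hzU]; exact hz
  obtain ⟨V, hV, hzV, hV'⟩ := hg
  have hopen := isOpen_ne_of_regular hV hV'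
  refine ⟨Subtype.val ⁻¹' (U ∩ {m | m ∈ V ∧ g m ≠ 0}),
    (hU.inter hopen).preimage continuous_subtype_val, ⟨hzU, hzV, hgz⟩, ?_⟩
  rintro w ⟨hwU, -, hw⟩
  rw [h w hwU]
  exact hw

theorem exists_open_ne {Z : Set (ModuliPt N d n)} (hZ : IsIrreducible Z)
    (f : rationalFunctions Z) (hf : f ∉ negligible Z) :
    ∃ U : Set Z, IsOpen U ∧ U.Nonempty ∧ ∀ w ∈ U, RegularOn Z f.1 w ∧ f.1 w ≠ 0 := by
  have : IrreducibleSpace Z := isIrreducible_iff_irreducibleSpace.1 hZ
  obtain ⟨U, hU, hne, h⟩ := mem_generic.1 f.2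
  have h1 : ∃ z ∈ U, f.1 z ≠ 0 := by
    by_contra hcon
    push Not at hcon
    exact hf (mem_generic_of_subset hU hne hcon)
  obtain ⟨z, hz, hfz⟩ := h1
  obtain ⟨V, hV, hzV, h2⟩ := RegularOn.exists_ne (h hz) hfz
  exact ⟨U ∩ V, hU.inter hV, ⟨z, hz, hzV⟩, fun w hw => ⟨h hw.1, h2 w hw.2⟩⟩

/-! ## The curve -/

/-- the parametrization of the component by the affine line -/
noncomputable def gam (hN : 2 ≤ N) (hd : 2 ≤ d) (hn : 1 ≤ n) (c : ℂ) :
    Zcomp (N := N) (d := d) (n := n) hN hd hn :=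
  ⟨mkPt (famPt hN hd hn c), subset_closure ⟨c, rfl⟩⟩

theorem gam_preimage (hN : 2 ≤ N) (hd : 2 ≤ d) (hn : 1 ≤ n)
    {U : Set (Zcomp (N := N) (d := d) (n := n) hN hd hn)} (hU : IsOpen U) (hne : U.Nonempty) :
    gam hN hd hn ⁻¹' U ∈ Filter.cofinite := by
  obtain ⟨V, hV, rfl⟩ := isOpen_induced_iff.1 hU
  obtain ⟨⟨z, hz⟩, hzV⟩ := hne
  obtain ⟨_, hv, ⟨c, rfl⟩⟩ := mem_closure_iff.1 hz V hV hzV
  exact isCurve_mkPt hN hd hn V hV ⟨c, hv⟩

theorem gam_eventually (hN : 2 ≤ N) (hd : 2 ≤ d) (hn : 1 ≤ n)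
    {P : Zcomp (N := N) (d := d) (n := n) hN hd hn → Prop}
    (h : ∀ᶠ z in generic (Zcomp (N := N) (d := d) (n := n) hN hd hn), P z) :
    ∀ᶠ c in Filter.cofinite, P (gam hN hd hn c) := by
  have : IrreducibleSpace (Zcomp (N := N) (d := d) (n := n) hN hd hn) :=
    isIrreducible_iff_irreducibleSpace.1 (isIrreducible_Zcomp hN hd hn)
  obtain ⟨U, hU, hne, h⟩ := mem_generic.1 h
  exact Filter.mem_of_superset (gam_preimage hN hd hn hU hne) fun c hc => h hc

/-- `r` represents the pull back of `f` to the affine line. -/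
def IsRep (hN : 2 ≤ N) (hd : 2 ≤ d) (hn : 1 ≤ n)
    (f : Zcomp (N := N) (d := d) (n := n) hN hd hn → ℂ) (r : RatFunc ℂ) : Prop :=
  ∃ p q : Polynomial ℂ, q ≠ 0 ∧ r = algebraMap _ (RatFunc ℂ) p / algebraMap _ (RatFunc ℂ) q ∧
    ∀ᶠ c in Filter.cofinite, f (gam hN hd hn c) * q.eval c = p.eval c

theorem eventually_eval_ne {q : Polynomial ℂ} (hq : q ≠ 0) :
    ∀ᶠ c in Filter.cofinite, q.eval c ≠ 0 := by
  rw [Filter.eventually_cofinite]
  simp only [not_not]
  exact Polynomial.finite_setOfPred_isRoot hq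

theorem IsRep.unique {hN : 2 ≤ N} {hd : 2 ≤ d} {hn : 1 ≤ n}
    {f : Zcomp (N := N) (d := d) (n := n) hN hd hn → ℂ} {r r' : RatFunc ℂ}
    (h : IsRep hN hd hn f r) (h' : IsRep hN hd hn f r') : r = r' := by
  obtain ⟨p, q, hq, rfl, hf⟩ := h
  obtain ⟨p', q', hq', rfl, hf'⟩ := h'
  have h1 : p * q' = p' * q := by
    refine Polynomial.eq_of_infinite_eval_eq _ _ ?_
    have h2 : {x | (p * q').eval x = (p' * q).eval x} ∈ Filter.cofinite := by
      filter_upwards [hf, hf'] with c h3 h4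
      rw [Polynomial.eval_mul, Polynomial.eval_mul, ← h3, ← h4]
      ring
    rw [Filter.mem_cofinite] at h2
    have := h2.infinite_compl
    rwa [compl_compl] at this
  rw [div_eq_div_iff (by simpa using hq) (by simpa using hq'), ← map_mul, ← map_mul, h1]

theorem IsRep.add {hN : 2 ≤ N} {hd : 2 ≤ d} {hn : 1 ≤ n}
    {f g : Zcomp (N := N) (d := d) (n := n) hN hd hn → ℂ} {r s : RatFunc ℂ}
    (h : IsRep hN hd hn f r) (h' : IsRep hN hd hn g s) :
    IsRep hN hd hn (fun z => f z + g z) (r + s) := by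
  obtain ⟨p, q, hq, rfl, hf⟩ := h
  obtain ⟨p', q', hq', rfl, hf'⟩ := h'
  refine ⟨p * q' + q * p', q * q', mul_ne_zero hq hq', ?_, ?_⟩
  · rw [div_add_div _ _ (by simpa using hq) (by simpa using hq')]
    simp only [map_add, map_mul]
  · filter_upwards [hf, hf'] with c h3 h4
    simp only [Polynomial.eval_mul, Polynomial.eval_add, ← h3, ← h4]
    ring

theorem IsRep.mul {hN : 2 ≤ N} {hd : 2 ≤ d} {hn : 1 ≤ n}
    {f g : Zcomp (N := N) (d := d) (n := n) hN hd hn → ℂ} {r s : RatFunc ℂ}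
    (h : IsRep hN hd hn f r) (h' : IsRep hN hd hn g s) :
    IsRep hN hd hn (fun z => f z * g z) (r * s) := by
  obtain ⟨p, q, hq, rfl, hf⟩ := h
  obtain ⟨p', q', hq', rfl, hf'⟩ := h'
  refine ⟨p * p', q * q', mul_ne_zero hq hq', ?_, ?_⟩
  · rw [div_mul_div_comm]
    simp only [map_mul]
  · filter_upwards [hf, hf'] with c h3 h4
    simp only [Polynomial.eval_mul, ← h3, ← h4]
    ring

theorem IsRep.const {hN : 2 ≤ N} {hd : 2 ≤ d} {hn : 1 ≤ n} (c : ℂ) :
    IsRep (N := N) (d := d) (n := n) hN hd hn (fun _ => c) (algebraMap ℂ (RatFunc ℂ) c) := by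
  refine ⟨Polynomial.C c, 1, one_ne_zero, ?_, Filter.Eventually.of_forall fun x => by simp⟩
  rw [map_one, div_one]
  rfl

theorem IsRep.inv {hN : 2 ≤ N} {hd : 2 ≤ d} {hn : 1 ≤ n}
    {f : Zcomp (N := N) (d := d) (n := n) hN hd hn → ℂ} {r : RatFunc ℂ} (hr : r ≠ 0)
    (h : IsRep hN hd hn f r) : IsRep hN hd hn (fun z => (f z)⁻¹) r⁻¹ := by
  obtain ⟨p, q, hq, rfl, hf⟩ := h
  have hp : p ≠ 0 := by
    rintro rfl
    simp at hr
  refine ⟨q, p, hp, by rw [inv_div], ?_⟩
  filter_upwards [hf, eventually_eval_ne hp] with c h3 h4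
  have h5 : f (gam hN hd hn c) ≠ 0 := by
    intro h0
    rw [h0, zero_mul] at h3
    exact h4 h3.symm
  rw [← h3, inv_mul_cancel_left₀ h5]

theorem exists_isRep (hN : 2 ≤ N) (hd : 2 ≤ d) (hn : 1 ≤ n)
    (f : rationalFunctions (Zcomp (N := N) (d := d) (n := n) hN hd hn)) :
    ∃ r, IsRep hN hd hn f.1 r := by
  obtain ⟨c0, hc0⟩ := (gam_eventually hN hd hn f.2).exists
  obtain ⟨g, hg, U, hU, hzU, hfg⟩ := hc0
  obtain ⟨V, hV, hzV, hreg⟩ := hg
  obtain ⟨O, hO, hxO, p, q, hpq⟩ := hreg (famPt hN hd hn c0) hzV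
  have hQ : aeval (famPoly N d n) q ≠ 0 := by
    intro h0
    have h1 := (hpq _ hxO).1
    rw [eval_famPt, h0, Polynomial.eval_zero] at h1
    exact h1 rfl
  refine ⟨_, aeval (famPoly N d n) p, aeval (famPoly N d n) q, hQ, rfl, ?_⟩
  have h1 : ∀ᶠ c in Filter.cofinite, famPt hN hd hn c ∈ O :=
    isCurve_famPt hN hd hn O hO ⟨c0, hxO⟩
  have h2 : ∀ᶠ c in Filter.cofinite, mkPt (famPt hN hd hn c) ∈ U :=
    isCurve_mkPt hN hd hn U hU ⟨c0, hzU⟩
  filter_upwards [h1, h2] with c h3 h4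
  obtain ⟨h5, h6⟩ := hpq _ h3
  have h7 : f.1 (gam hN hd hn c) = g (mkPt (famPt hN hd hn c)) := hfg (gam hN hd hn c) h4
  have h8 : g (mkPt (famPt hN hd hn c)) = _ := h6
  rw [eval_famPt] at h5
  rw [h7, h8, eval_famPt, eval_famPt, div_mul_cancel₀ _ h5]

/-- The pull back of rational functions to the affine line. -/
noncomputable def pull (hN : 2 ≤ N) (hd : 2 ≤ d) (hn : 1 ≤ n) :
    rationalFunctions (Zcomp (N := N) (d := d) (n := n) hN hd hn) →ₐ[ℂ] RatFunc ℂ where
  toFun f := (exists_isRep hN hd hn f).choose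
  map_one' := by
    refine IsRep.unique (exists_isRep hN hd hn 1).choose_spec ?_
    have := IsRep.const (hN := hN) (hd := hd) (hn := hn) 1
    rw [map_one] at this
    exact this
  map_mul' f g := IsRep.unique (exists_isRep hN hd hn (f * g)).choose_spec
    ((exists_isRep hN hd hn f).choose_spec.mul (exists_isRep hN hd hn g).choose_spec)
  map_zero' := by
    refine IsRep.unique (exists_isRep hN hd hn 0).choose_spec ?_
    have := IsRep.const (hN := hN) (hd := hd) (hn := hn) 0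
    rw [map_zero] at this
    exact this
  map_add' f g := IsRep.unique (exists_isRep hN hd hn (f + g)).choose_spec
    ((exists_isRep hN hd hn f).choose_spec.add (exists_isRep hN hd hn g).choose_spec)
  commutes' c := IsRep.unique (exists_isRep hN hd hn (algebraMap ℂ _ c)).choose_spec
    (IsRep.const c)

theorem pull_spec (hN : 2 ≤ N) (hd : 2 ≤ d) (hn : 1 ≤ n)
    (f : rationalFunctions (Zcomp (N := N) (d := d) (n := n) hN hd hn)) :
    IsRep hN hd hn f.1 (pull hN hd hn f) :=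
  (exists_isRep hN hd hn f).choose_spec

theorem pull_eq_zero_iff (hN : 2 ≤ N) (hd : 2 ≤ d) (hn : 1 ≤ n)
    (f : rationalFunctions (Zcomp (N := N) (d := d) (n := n) hN hd hn)) :
    pull hN hd hn f = 0 ↔ f ∈ negligible (Zcomp (N := N) (d := d) (n := n) hN hd hn) := by
  constructor
  · intro h
    obtain ⟨p, q, hq, h1, h2⟩ := pull_spec hN hd hn f
    rw [h] at h1
    have hp : p = 0 := by
      have h3 := (div_eq_zero_iff.1 h1.symm).resolve_right (by simpa using hq)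
      simpa using h3
    subst hp
    by_contra hcon
    obtain ⟨U, hU, hne, hU'⟩ := exists_open_ne (isIrreducible_Zcomp hN hd hn) f hcon
    have h3 : ∀ᶠ c in Filter.cofinite, gam hN hd hn c ∈ U := gam_preimage hN hd hn hU hne
    obtain ⟨c, h4, h5, h6⟩ := (h2.and (h3.and (eventually_eval_ne hq))).exists
    rw [Polynomial.eval_zero] at h4
    exact mul_ne_zero (hU' _ h5).2 h6 h4
  · intro h
    refine IsRep.unique (pull_spec hN hd hn f) ⟨0, 1, one_ne_zero, by simp, ?_⟩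
    filter_upwards [gam_eventually hN hd hn h] with c hc
    rw [hc]
    simp

theorem inv_mem_range (hN : 2 ≤ N) (hd : 2 ≤ d) (hn : 1 ≤ n) (r : RatFunc ℂ)
    (hr : r ∈ (pull (N := N) (d := d) (n := n) hN hd hn).range) :
    r⁻¹ ∈ (pull (N := N) (d := d) (n := n) hN hd hn).range := by
  obtain ⟨f, hf⟩ := hr
  have hf' : pull hN hd hn f = r := hf
  by_cases h0 : r = 0
  · rw [h0, inv_zero]
    exact zero_mem _
  · have hneg : f ∉ negligible (Zcomp (N := N) (d := d) (n := n) hN hd hn) := by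
      rw [← pull_eq_zero_iff, hf']
      exact h0
    obtain ⟨U, hU, hne, hU'⟩ := exists_open_ne (isIrreducible_Zcomp hN hd hn) f hneg
    have hmem : (fun z => (f.1 z)⁻¹) ∈
        rationalFunctions (Zcomp (N := N) (d := d) (n := n) hN hd hn) :=
      mem_generic_of_subset hU hne fun w hw => (hU' w hw).1.inv (hU' w hw).2
    refine ⟨⟨_, hmem⟩, ?_⟩
    show pull hN hd hn ⟨_, hmem⟩ = r⁻¹
    refine IsRep.unique (pull_spec hN hd hn ⟨_, hmem⟩) ?_
    have h1 := pull_spec hN hd hn f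
    rw [hf'] at h1
    exact h1.inv h0

/-- The image of the function field in `ℂ(t)`. -/
noncomputable def imField (hN : 2 ≤ N) (hd : 2 ≤ d) (hn : 1 ≤ n) :
    IntermediateField ℂ (RatFunc ℂ) :=
  (pull (N := N) (d := d) (n := n) hN hd hn).range.toIntermediateField
    (inv_mem_range hN hd hn)

theorem imField_ne_bot (hN : 2 ≤ N) (hd : 2 ≤ d) (hn : 1 ≤ n) : imField hN hd hn ≠ ⊥ := by
  intro hbot
  have hmem : (fun z : Zcomp (N := N) (d := d) (n := n) hN hd hn => traceFn N d n z.1) ∈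
      rationalFunctions (Zcomp (N := N) (d := d) (n := n) hN hd hn) := by
    refine Filter.Eventually.of_forall fun z => ?_
    exact ⟨traceFn N d n, regularAt_traceFn _, Set.univ, isOpen_univ, trivial, fun _ _ => rfl⟩
  have h1 : pull hN hd hn ⟨_, hmem⟩ = algebraMap (Polynomial ℂ) (RatFunc ℂ)
      (Polynomial.C (traceConst N d n) + Polynomial.X ^ n) := by
    refine IsRep.unique (pull_spec hN hd hn ⟨_, hmem⟩)
      ⟨Polynomial.C (traceConst N d n) + Polynomial.X ^ n, 1, one_ne_zero, by simp, ?_⟩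
    refine Filter.Eventually.of_forall fun c => ?_
    have h2 : traceFn N d n (gam hN hd hn c).1 = traceConst N d n + c ^ n :=
      traceFn_fam hN hd hn c
    simp only [h2]
    simp
  have h2 : pull hN hd hn ⟨_, hmem⟩ ∈ imField (N := N) (d := d) (n := n) hN hd hn := ⟨_, rfl⟩
  rw [hbot, h1, IntermediateField.mem_bot] at h2
  obtain ⟨c, hc⟩ := h2
  have h3 : algebraMap (Polynomial ℂ) (RatFunc ℂ) (Polynomial.C c) =
      algebraMap (Polynomial ℂ) (RatFunc ℂ) (Polynomial.C (traceConst N d n) +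
        Polynomial.X ^ n) := hc
  have h4 := IsFractionRing.injective (Polynomial ℂ) (RatFunc ℂ) h3
  have h5 := congrArg (fun P => Polynomial.coeff P n) h4
  simp only [Polynomial.coeff_add, Polynomial.coeff_C, Polynomial.coeff_X_pow,
    if_neg (show n ≠ 0 by omega), if_true] at h5
  norm_num at h5

theorem IsFunctionField.unique {Z : Set (ModuliPt N d n)} {K L : Type} [Field K] [Algebra ℂ K]
    [Field L] [Algebra ℂ L] (hK : IsFunctionField Z K) (hL : IsFunctionField Z L) :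
    Nonempty (K ≃ₐ[ℂ] L) := by
  obtain ⟨φ, hφ, h1⟩ := hK
  obtain ⟨ψ, hψ, h2⟩ := hL
  have hker : RingHom.ker φ = RingHom.ker ψ := by
    ext f
    rw [RingHom.mem_ker, RingHom.mem_ker, h1, h2]
  have e1 := Ideal.quotientKerAlgEquivOfSurjective hφ
  have e2 := Ideal.quotientKerAlgEquivOfSurjective hψ
  have e3 := Ideal.quotientEquivAlgOfEq ℂ hker
  exact ⟨(e1.symm.trans e3).trans e2⟩

/-- The function field of the component is isomorphic to `ℂ(t)`. -/
theorem isFunctionField_Zcomp (hN : 2 ≤ N) (hd : 2 ≤ d) (hn : 1 ≤ n) :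
    IsFunctionField (Zcomp (N := N) (d := d) (n := n) hN hd hn) (RatFunc ℂ) := by
  have e3 : (pull (N := N) (d := d) (n := n) hN hd hn).range ≃ₐ[ℂ]
      imField (N := N) (d := d) (n := n) hN hd hn := AlgEquiv.refl
  have e4 := RatFunc.Luroth.algEquiv (imField_ne_bot (N := N) (d := d) (n := n) hN hd hn)
  have e5 := e3.trans e4.symm
  refine ⟨e5.toAlgHom.comp (pull (N := N) (d := d) (n := n) hN hd hn).rangeRestrict, ?_, ?_⟩
  · exact e5.surjective.comp
      (AlgHom.rangeRestrict_surjective (pull (N := N) (d := d) (n := n) hN hd hn))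
  · intro f
    have h1 := pull_eq_zero_iff (N := N) (d := d) (n := n) hN hd hn f
    have h2 : (∀ᶠ z in generic (Zcomp (N := N) (d := d) (n := n) hN hd hn), f.1 z = 0) ↔
        f ∈ negligible (Zcomp (N := N) (d := d) (n := n) hN hd hn) := Iff.rfl
    rw [h2, ← h1]
    show e5 ((pull (N := N) (d := d) (n := n) hN hd hn).rangeRestrict f) = 0 ↔ _
    rw [map_eq_zero_iff e5 e5.injective]
    constructor
    · intro h
      exact congrArg Subtype.val h
    · intro h
      exact Subtype.ext h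

end Pool.Agent.Helper27.DynMod
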