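import Pool.Agent.Helper27.DynMod.GenTypeDef

set_option autoImplicit false
set_option linter.style.haveILetI false

namespace Pool.Agent.Helper27.DynMod

open Polynomial

section inst

variable (K : Type) [Field K] [Algebra ℂ K] [Algebra ℂ[X] K] [IsScalarTower ℂ ℂ[X] K]
  [IsFractionRing ℂ[X] K]

/-- A linear form on differentials extending `dp ↦ p'`. -/
theorem exists_linearForm : ∃ ℓ : KaehlerDifferential ℂ K →ₗ[K] K,
    (∀ p : ℂ[X], ℓ (KaehlerDifferential.D ℂ K (algebraMap ℂ[X] K p)) =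
      algebraMap ℂ[X] K (derivative p)) ∧
    ∀ ω, ω = ℓ ω • KaehlerDifferential.D ℂ K (algebraMap ℂ[X] K X) := by
  have hE : Algebra.FormallyEtale ℂ[X] K :=
    Algebra.FormallyEtale.of_isLocalization (Rₘ := K) (nonZeroDivisors ℂ[X])
  have hb := KaehlerDifferential.isBaseChange_of_formallyEtale ℂ ℂ[X] K
  let g : KaehlerDifferential ℂ ℂ[X] →ₗ[ℂ[X]] K :=
    (Algebra.linearMap ℂ[X] K).comp (KaehlerDifferential.polynomialEquiv ℂ).toLinearMap
  have hg : ∀ p : ℂ[X], hb.lift g (KaehlerDifferential.D ℂ K (algebraMap ℂ[X] K p)) =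
      algebraMap ℂ[X] K (derivative p) := by
    intro p
    have h1 := hb.lift_eq g (KaehlerDifferential.D ℂ ℂ[X] p)
    rw [KaehlerDifferential.map_D] at h1
    rw [h1]
    simp [g]
  refine ⟨hb.lift g, hg, ?_⟩
  intro ω
  have hspan := KaehlerDifferential.span_range_map_derivation_of_isLocalization ℂ ℂ[X] K
    (nonZeroDivisors ℂ[X])
  have hω : ω ∈ Submodule.span K (Set.range
      (KaehlerDifferential.map ℂ ℂ ℂ[X] K ∘ KaehlerDifferential.D ℂ ℂ[X])) := by
    rw [hspan]; trivial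
  induction hω using Submodule.span_induction with
  | mem x hx =>
    obtain ⟨p, rfl⟩ := hx
    have h1 : (KaehlerDifferential.map ℂ ℂ ℂ[X] K) (KaehlerDifferential.D ℂ ℂ[X] p) =
      KaehlerDifferential.D ℂ K (algebraMap ℂ[X] K p) := KaehlerDifferential.map_D _ _ _ _ _
    rw [Function.comp_apply, h1, hg]
    have h2 : KaehlerDifferential.D ℂ ℂ[X] p = derivative p • KaehlerDifferential.D ℂ ℂ[X] X := by
      apply (KaehlerDifferential.polynomialEquiv ℂ).injective
      rw [map_smul, KaehlerDifferential.polynomialEquiv_D, KaehlerDifferential.polynomialEquiv_D,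
        derivative_X, smul_eq_mul, mul_one]
    have h3 := congrArg (KaehlerDifferential.map ℂ ℂ ℂ[X] K) h2
    rw [map_smul, KaehlerDifferential.map_D, KaehlerDifferential.map_D] at h3
    rw [h3, algebraMap_smul]
  | zero => simp
  | add x y _ _ hx hy =>
    rw [map_add, add_smul, ← hx, ← hy]
  | smul c x _ hx =>
    rw [map_smul, smul_eq_mul, mul_smul, ← hx]

end inst

/-- `φ` makes `K` the fraction field of `ℂ[X]`. -/
structure IsGen {K : Type} [Field K] [Algebra ℂ K] (φ : ℂ[X] →ₐ[ℂ] K) : Prop where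
  inj : Function.Injective φ
  surj : ∀ f : K, ∃ p q : ℂ[X], q ≠ 0 ∧ f = φ p / φ q

variable {K : Type} [Field K] [Algebra ℂ K] {φ : ℂ[X] →ₐ[ℂ] K}

theorem IsGen.map_ne_zero (h : IsGen φ) {q : ℂ[X]} (hq : q ≠ 0) : φ q ≠ 0 := by
  intro h0
  exact hq (h.inj (h0.trans (map_zero φ).symm))

theorem IsGen.isFractionRing (h : IsGen φ) :
    letI := φ.toRingHom.toAlgebra
    IsFractionRing ℂ[X] K := by
  letI := φ.toRingHom.toAlgebra
  haveI : FaithfulSMul ℂ[X] K := (faithfulSMul_iff_algebraMap_injective _ _).2 h.inj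
  refine IsFractionRing.of_field ℂ[X] K fun f => ?_
  obtain ⟨p, q, -, hf⟩ := h.surj f
  exact ⟨p, q, hf⟩

theorem IsGen.exists_linearForm (h : IsGen φ) : ∃ ℓ : KaehlerDifferential ℂ K →ₗ[K] K,
    (∀ p : ℂ[X], ℓ (KaehlerDifferential.D ℂ K (φ p)) = φ (derivative p)) ∧
    ∀ ω, ω = ℓ ω • KaehlerDifferential.D ℂ K (φ X) := by
  letI := φ.toRingHom.toAlgebra
  haveI := h.isFractionRing
  haveI : IsScalarTower ℂ ℂ[X] K := IsScalarTower.of_algebraMap_eq fun c => (φ.commutes c).symm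
  exact DynMod.exists_linearForm K

theorem IsGen.exists_coprime (h : IsGen φ) (f : K) :
    ∃ p q : ℂ[X], IsCoprime p q ∧ q ≠ 0 ∧ f = φ p / φ q := by
  obtain ⟨p, q, hq, hf⟩ := h.surj f
  have hg : GCDMonoid.gcd p q ≠ 0 := by
    intro h0
    exact hq ((gcd_eq_zero_iff _ _).1 h0).2
  refine ⟨p / GCDMonoid.gcd p q, q / GCDMonoid.gcd p q, isCoprime_div_gcd_div_gcd hq, ?_, ?_⟩
  · intro h0
    have h1 := EuclideanDomain.mul_div_cancel' hg (gcd_dvd_right p q)
    rw [h0, mul_zero] at h1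
    exact hq h1.symm
  · have h1 := EuclideanDomain.mul_div_cancel' hg (gcd_dvd_right p q)
    have h2 := EuclideanDomain.mul_div_cancel' hg (gcd_dvd_left p q)
    have h3 : φ q = φ (GCDMonoid.gcd p q) * φ (q / GCDMonoid.gcd p q) := by rw [← map_mul, h1]
    have h4 : φ p = φ (GCDMonoid.gcd p q) * φ (p / GCDMonoid.gcd p q) := by rw [← map_mul, h2]
    have h5 : φ p / φ q = φ (p / GCDMonoid.gcd p q) / φ (q / GCDMonoid.gcd p q) := by
      rw [h4, h3]
      exact mul_div_mul_left _ _ (h.map_ne_zero hg)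
    rw [hf, h5]

/-- The local ring of the affine line at `a`. -/
def IsGen.ringAt (h : IsGen φ) (a : ℂ) : ValuationSubring K where
  carrier := {f | ∃ p q : ℂ[X], q.eval a ≠ 0 ∧ f = φ p / φ q}
  mul_mem' := by
    rintro _ _ ⟨p, q, hq, rfl⟩ ⟨p', q', hq', rfl⟩
    exact ⟨p * p', q * q', by rw [eval_mul]; exact mul_ne_zero hq hq', by
      rw [map_mul, map_mul, div_mul_div_comm]⟩
  one_mem' := ⟨1, 1, by simp, by simp⟩
  add_mem' := by
    rintro _ _ ⟨p, q, hq, rfl⟩ ⟨p', q', hq', rfl⟩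
    have h1 : φ q ≠ 0 := h.map_ne_zero (by rintro rfl; simp at hq)
    have h2 : φ q' ≠ 0 := h.map_ne_zero (by rintro rfl; simp at hq')
    refine ⟨p * q' + q * p', q * q', by rw [eval_mul]; exact mul_ne_zero hq hq', ?_⟩
    rw [div_add_div _ _ h1 h2]
    simp
  zero_mem' := ⟨0, 1, by simp, by simp⟩
  neg_mem' := by
    rintro _ ⟨p, q, hq, rfl⟩
    exact ⟨-p, q, hq, by rw [map_neg, neg_div]⟩
  mem_or_inv_mem' f := by
    obtain ⟨p, q, hpq, hq, hf⟩ := h.exists_coprime f
    by_cases hqa : q.eval a = 0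
    · right
      refine ⟨q, p, ?_, by rw [hf, inv_div]⟩
      intro hpa
      obtain ⟨u, v, huv⟩ := hpq
      have := congrArg (eval a) huv
      rw [eval_add, eval_mul, eval_mul, hpa, hqa] at this
      simp at this
    · left
      exact ⟨p, q, hqa, hf⟩

theorem IsGen.mem_ringAt (h : IsGen φ) {a : ℂ} {f : K} :
    f ∈ h.ringAt a ↔ ∃ p q : ℂ[X], q.eval a ≠ 0 ∧ f = φ p / φ q := Iff.rfl

theorem IsGen.isDVR_ringAt (h : IsGen φ) (a : ℂ) : IsDiscreteValuationRing (h.ringAt a) := by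
  letI := φ.toRingHom.toAlgebra
  haveI := h.isFractionRing
  set P : Ideal ℂ[X] := Ideal.span {X - C a} with hP
  haveI hprime : P.IsPrime := by
    rw [hP, Ideal.span_singleton_prime (X_sub_C_ne_zero a)]
    exact prime_X_sub_C a
  have hPbot : P ≠ ⊥ := by
    rw [hP, Ne, Ideal.span_singleton_eq_bot]
    exact X_sub_C_ne_zero a
  have hle : P.primeCompl ≤ nonZeroDivisors ℂ[X] := P.primeCompl_le_nonZeroDivisors
  have hmem : ∀ q : ℂ[X], q ∈ P.primeCompl ↔ q.eval a ≠ 0 := by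
    intro q
    rw [Ideal.mem_primeCompl_iff, hP, Ideal.mem_span_singleton, dvd_iff_isRoot]
    rfl
  haveI hloc : IsLocalization.AtPrime (Localization.subalgebra.ofField K P.primeCompl hle) P :=
    Localization.subalgebra.isLocalization_ofField K P.primeCompl hle
  have hdvr : IsDiscreteValuationRing (Localization.subalgebra.ofField K P.primeCompl hle) :=
    IsLocalization.AtPrime.isDiscreteValuationRing_of_dedekind_domain ℂ[X] hPbot _
  have heq : (Localization.subalgebra.ofField K P.primeCompl hle).toSubring =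
      (h.ringAt a).toSubring := by
    ext f
    constructor
    · rintro ⟨p, q, hq, hf⟩
      exact ⟨p, q, (hmem q).1 hq, by rw [hf, div_eq_mul_inv]; rfl⟩
    · rintro ⟨p, q, hq, hf⟩
      exact ⟨p, q, (hmem q).2 hq, by rw [hf, div_eq_mul_inv]; rfl⟩
  have e : (Localization.subalgebra.ofField K P.primeCompl hle) ≃+* (h.ringAt a) :=
    RingEquiv.subringCongr heq
  exact IsDiscreteValuationRing.RingEquivClass.isDiscreteValuationRing e

theorem IsGen.isPrimeDivisor_ringAt (h : IsGen φ) (a : ℂ) : IsPrimeDivisor K 1 (h.ringAt a) := by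
  refine ⟨fun c => ?_, h.isDVR_ringAt a, fun i => 0, fun P hP => ?_⟩
  · exact ⟨C c, 1, by simp, by
      rw [map_one, div_one]
      exact (φ.commutes c).symm⟩
  · haveI : IsEmpty (Fin (1 - 1)) := Fin.isEmpty
    obtain ⟨c, rfl⟩ := MvPolynomial.C_surjective (Fin (1 - 1)) P
    have hc : c ≠ 0 := by
      rintro rfl
      simp at hP
    have h1 : ∀ c : ℂ, algebraMap ℂ K c ∈ h.ringAt a := fun c => ⟨C c, 1, by simp, by
      rw [map_one, div_one]
      exact (φ.commutes c).symm⟩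
    rw [MvPolynomial.aeval_C, ← map_inv₀]
    exact ⟨h1 c, h1 c⁻¹⟩

theorem IsGen.deriv_mem_ringAt (h : IsGen φ) {ℓ : KaehlerDifferential ℂ K →ₗ[K] K}
    (hℓ : ∀ p : ℂ[X], ℓ (KaehlerDifferential.D ℂ K (φ p)) = φ (derivative p)) (a : ℂ) {f : K}
    (hf : f ∈ h.ringAt a) : ℓ (KaehlerDifferential.D ℂ K f) ∈ h.ringAt a := by
  obtain ⟨p, q, hq, rfl⟩ := hf
  refine ⟨q * derivative p - p * derivative q, q ^ 2, by rw [eval_pow]; exact pow_ne_zero 2 hq, ?_⟩
  rw [Derivation.leibniz_div, map_smul, map_sub, map_smul, map_smul, hℓ, hℓ]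
  simp only [smul_eq_mul, map_sub, map_mul, map_pow]
  field_simp

/-- A functional evaluated on the top forms in dimension one. -/
theorem IsGen.mul_mem (h : IsGen φ) (m : ℕ) {ℓ : KaehlerDifferential ℂ K →ₗ[K] K}
    (hℓ : ∀ p : ℂ[X], ℓ (KaehlerDifferential.D ℂ K (φ p)) = φ (derivative p)) (a : ℂ)
    {x : Fin 1 → K} {f : K} (hf : IsRegularAlong K x m (h.ringAt a) f) :
    ℓ (KaehlerDifferential.D ℂ K (x 0)) ^ m * f ∈ h.ringAt a := by
  induction hf using AddSubmonoid.closure_induction with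
  | mem w hw =>
    obtain ⟨b, hb, y, M, hy, hM, rfl⟩ := hw
    have h1 : ∀ j, ℓ (KaehlerDifferential.D ℂ K (x 0)) * (M j).det =
        ℓ (KaehlerDifferential.D ℂ K (y j 0)) := by
      intro j
      have h2 := hM j 0
      rw [h2, Fin.sum_univ_one, map_smul, smul_eq_mul, Matrix.det_fin_one, mul_comm]
    have h3 : ℓ (KaehlerDifferential.D ℂ K (x 0)) ^ m * (b * ∏ j, (M j).det) =
        b * ∏ j, ℓ (KaehlerDifferential.D ℂ K (y j 0)) := by
      simp only [← h1, Finset.prod_mul_distrib, Finset.prod_const, Finset.card_univ,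
        Fintype.card_fin]
      ring
    rw [h3]
    exact MulMemClass.mul_mem hb (prod_mem fun j _ => h.deriv_mem_ringAt hℓ a (hy j 0))
  | zero => rw [mul_zero]; exact zero_mem _
  | add x y _ _ hx hy => rw [mul_add]; exact add_mem hx hy

theorem IsGen.exists_poly (h : IsGen φ) {f : K} (hf : ∀ a, f ∈ h.ringAt a) :
    ∃ F : ℂ[X], f = φ F := by
  obtain ⟨p, q, hpq, hq, hfpq⟩ := h.exists_coprime f
  have hqc : q.degree = 0 := by
    by_contra hdeg
    obtain ⟨a, ha⟩ := IsAlgClosed.exists_root q hdeg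
    obtain ⟨p1, q1, hq1, hf1⟩ := hf a
    have h1 : φ q ≠ 0 := h.map_ne_zero hq
    have h2 : φ q1 ≠ 0 := h.map_ne_zero (by rintro rfl; simp at hq1)
    have h3 : p * q1 = p1 * q := by
      apply h.inj
      rw [map_mul, map_mul]
      have := hfpq.symm.trans hf1
      rwa [div_eq_div_iff h1 h2] at this
    have h4 := congrArg (eval a) h3
    rw [eval_mul, eval_mul, ha.eq_zero, mul_zero] at h4
    have h5 : p.eval a = 0 := (mul_eq_zero.1 h4).resolve_right hq1
    obtain ⟨u, v, huv⟩ := hpq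
    have h6 := congrArg (eval a) huv
    rw [eval_add, eval_mul, eval_mul, h5, ha.eq_zero] at h6
    simp at h6
  obtain ⟨c, hc⟩ : ∃ c, q = C c := ⟨q.coeff 0, eq_C_of_degree_eq_zero hqc⟩
  have hc0 : c ≠ 0 := by
    rintro rfl
    simp [hc] at hq
  refine ⟨C c⁻¹ * p, ?_⟩
  have h1 : φ (C c) ≠ 0 := by rw [← hc]; exact h.map_ne_zero hq
  rw [hfpq, hc, div_eq_iff h1, ← map_mul]
  congr 1
  rw [mul_comm (C c⁻¹) p, mul_assoc, ← C_mul, inv_mul_cancel₀ hc0, C_1, mul_one]

/-! ## The place at infinity -/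

theorem aeval_reflect {t : K} (ht : t ≠ 0) (N : ℕ) (P : ℂ[X]) (hP : P.natDegree ≤ N) :
    aeval t (reflect N P) = aeval t⁻¹ P * t ^ N := by
  letI : Invertible t⁻¹ := invertibleOfNonzero (inv_ne_zero ht)
  have h1 := eval₂_reflect_mul_pow (algebraMap ℂ K) t⁻¹ N P hP
  have h2 : ⅟(t⁻¹) = t := by rw [invOf_eq_inv, inv_inv]
  rw [h2] at h1
  rw [aeval_def, aeval_def, ← h1, mul_assoc, inv_pow, inv_mul_cancel₀ (pow_ne_zero N ht), mul_one]

theorem IsGen.t_ne_zero {t : K} (h : IsGen (aeval t : ℂ[X] →ₐ[ℂ] K)) : t ≠ 0 := by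
  have := h.map_ne_zero (X_ne_zero (R := ℂ))
  rwa [aeval_X] at this

theorem natDegree_reflect_le' {N : ℕ} {p : ℂ[X]} (hp : p.natDegree ≤ N) :
    (p.reflect N).natDegree ≤ N :=
  natDegree_reflect_le.trans (max_le le_rfl hp)

theorem IsGen.inv {t : K} (h : IsGen (aeval t : ℂ[X] →ₐ[ℂ] K)) :
    IsGen (aeval t⁻¹ : ℂ[X] →ₐ[ℂ] K) where
  inj := by
    rw [injective_iff_map_eq_zero]
    intro P hP
    have h1 := aeval_reflect h.t_ne_zero P.natDegree P le_rfl
    rw [hP, zero_mul] at h1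
    exact reflect_eq_zero_iff.1 (h.inj (h1.trans (map_zero _).symm))
  surj := by
    intro f
    obtain ⟨p, q, hq, hf⟩ := h.surj f
    set N := max p.natDegree q.natDegree with hN
    have hp' : p.natDegree ≤ N := le_max_left _ _
    have hq' : q.natDegree ≤ N := le_max_right _ _
    refine ⟨reflect N p, reflect N q, fun h0 => hq (reflect_eq_zero_iff.1 h0), ?_⟩
    have h1 := aeval_reflect h.t_ne_zero N (reflect N p) (natDegree_reflect_le' hp')
    have h2 := aeval_reflect h.t_ne_zero N (reflect N q) (natDegree_reflect_le' hq')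
    rw [reflect_reflect] at h1 h2
    rw [hf, h1, h2, mul_div_mul_right _ _ (pow_ne_zero N h.t_ne_zero)]

/-- There are no nonzero pluricanonical forms on the projective line. -/
theorem IsGen.eq_zero {t : K} (h : IsGen (aeval t : ℂ[X] →ₐ[ℂ] K)) {m : ℕ} (hm : 1 ≤ m)
    {x : Fin 1 → K} (hx : KaehlerDifferential.D ℂ K (x 0) ≠ 0) {f : K}
    (hf : IsPluricanonical K x m f) : f = 0 := by
  obtain ⟨ℓ, hℓ, hℓ'⟩ := h.exists_linearForm
  obtain ⟨ℓ₁, hℓ₁, hℓ₁'⟩ := h.inv.exists_linearForm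
  rw [aeval_X] at hℓ' hℓ₁'
  have ht := h.t_ne_zero
  -- the coefficient with respect to `dt` is a polynomial in `t`
  obtain ⟨F, hF⟩ := h.exists_poly (f := ℓ (KaehlerDifferential.D ℂ K (x 0)) ^ m * f) fun a =>
    h.mul_mem m hℓ a (hf _ (h.isPrimeDivisor_ringAt a))
  -- the coefficient at infinity
  have h2 : ℓ₁ (KaehlerDifferential.D ℂ K (x 0)) ^ m * f ∈ h.inv.ringAt 0 :=
    h.inv.mul_mem m hℓ₁ 0 (hf _ (h.inv.isPrimeDivisor_ringAt 0))
  have h3 : ℓ₁ (KaehlerDifferential.D ℂ K t) = - t ^ 2 := by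
    have h4 : ℓ₁ (KaehlerDifferential.D ℂ K t⁻¹) = 1 := by
      have := hℓ₁ X
      rwa [aeval_X, derivative_X, map_one] at this
    have h5 : KaehlerDifferential.D ℂ K t = KaehlerDifferential.D ℂ K (t⁻¹)⁻¹ := by rw [inv_inv]
    rw [h5, Derivation.leibniz_inv, map_smul, h4, smul_eq_mul, mul_one, inv_inv]
  have h4 : ℓ₁ (KaehlerDifferential.D ℂ K (x 0)) ^ m * f = aeval t F * (- t ^ 2) ^ m := by
    rw [← hF]
    have h5 := congrArg ℓ₁ (hℓ' (KaehlerDifferential.D ℂ K (x 0)))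
    rw [map_smul, h3, smul_eq_mul] at h5
    rw [h5]
    ring
  obtain ⟨P, Q, hQ0, hPQ⟩ := h2
  rw [h4] at hPQ
  have hF0 : F = 0 := by
    by_contra hF0
    have hQ : Q ≠ 0 := by rintro rfl; simp at hQ0
    set N := max P.natDegree Q.natDegree with hN
    have hP' : P.natDegree ≤ N := le_max_left _ _
    have hQ' : Q.natDegree ≤ N := le_max_right _ _
    have h5 := aeval_reflect ht N P hP'
    have h6 := aeval_reflect ht N Q hQ'
    have h7 : (aeval t⁻¹ Q : K) ≠ 0 := h.inv.map_ne_zero hQ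
    rw [eq_div_iff h7] at hPQ
    have h8 : (aeval t (F * (-X ^ 2) ^ m * reflect N Q) : K) = aeval t (reflect N P) := by
      rw [h5, ← hPQ, map_mul, map_mul, map_pow, map_neg, map_pow, aeval_X, h6]
      ring
    have h9 := h.inj h8
    have h10 : reflect N Q ≠ 0 := fun h0 => hQ (reflect_eq_zero_iff.1 h0)
    have h11 : N ≤ (reflect N Q).natDegree := by
      refine le_natDegree_of_ne_zero ?_
      rw [coeff_reflect, revAt_le le_rfl, Nat.sub_self]
      rwa [← coeff_zero_eq_eval_zero] at hQ0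
    have h12 := congrArg natDegree h9
    have h13 : ((-X ^ 2 : ℂ[X]) ^ m) ≠ 0 := pow_ne_zero _ (neg_ne_zero.2 (pow_ne_zero _ X_ne_zero))
    rw [natDegree_mul (mul_ne_zero hF0 h13) h10, natDegree_mul hF0 h13, natDegree_pow,
      natDegree_neg, natDegree_pow, natDegree_X] at h12
    have h14 := natDegree_reflect_le' hP'
    omega
  rw [hF0, map_zero] at hF
  refine (mul_eq_zero.1 hF).resolve_left (pow_ne_zero m ?_)
  intro h0
  apply hx
  rw [hℓ' (KaehlerDifferential.D ℂ K (x 0)), h0, zero_smul]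

theorem trdeg_ratFunc : Algebra.trdeg ℂ (RatFunc ℂ) = 1 := by
  have h1 := trdeg_add_eq ℂ ℂ[X] (A := RatFunc ℂ)
  have h2 : Algebra.IsAlgebraic ℂ[X] (RatFunc ℂ) :=
    IsLocalization.isAlgebraic _ (nonZeroDivisors ℂ[X])
  rw [Polynomial.trdeg_of_isDomain, trdeg_eq_zero, add_zero] at h1
  exact h1.symm

/-- A purely transcendental extension of degree one is not of general type. -/
theorem not_isGeneralType (e : K ≃ₐ[ℂ] RatFunc ℂ) : ¬ IsGeneralType K := by
  rintro ⟨n, x, ⟨hli, hspan⟩, m, hm, halg⟩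
  have hgen : IsGen (aeval (e.symm RatFunc.X) : ℂ[X] →ₐ[ℂ] K) := by
    have h1 : ∀ p : ℂ[X], aeval (e.symm RatFunc.X) p = e.symm (algebraMap ℂ[X] (RatFunc ℂ) p) := by
      intro p
      have h2 : aeval (e.symm RatFunc.X) p = e.symm (aeval RatFunc.X p) :=
        aeval_algHom_apply (e.symm : RatFunc ℂ →ₐ[ℂ] K) RatFunc.X p
      rw [h2, RatFunc.aeval_X_left_eq_algebraMap]
    refine ⟨?_, ?_⟩
    · intro p q hpq
      rw [h1, h1] at hpq
      exact IsFractionRing.injective ℂ[X] (RatFunc ℂ) (e.symm.injective hpq)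
    · intro f
      obtain ⟨p, q, hq, hpq⟩ := IsFractionRing.div_surjective ℂ[X] (e f)
      refine ⟨p, q, nonZeroDivisors.ne_zero hq, ?_⟩
      rw [h1, h1, ← map_div₀, hpq, AlgEquiv.symm_apply_apply]
  have hn1 : n = 1 := by
    obtain ⟨ℓ, hℓ, hℓ'⟩ := hgen.exists_linearForm
    have hD : KaehlerDifferential.D ℂ K (aeval (e.symm RatFunc.X) (X : ℂ[X])) ≠ 0 := by
      intro h0
      have h1 := hℓ X
      rw [h0, map_zero, derivative_X, map_one] at h1
      exact zero_ne_one h1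
    have h1 : Module.finrank K (KaehlerDifferential ℂ K) = 1 :=
      finrank_eq_one _ hD fun w => ⟨ℓ w, (hℓ' w).symm⟩
    have h2 := Module.finrank_eq_card_basis (Module.Basis.mk hli hspan.ge)
    rw [h1, Fintype.card_fin] at h2
    exact h2.symm
  subst hn1
  have hempty : {h : K | ∃ f g : K, IsPluricanonical K x m f ∧ IsPluricanonical K x m g ∧
      g ≠ 0 ∧ h = f / g} = ∅ := by
    refine Set.eq_empty_of_forall_notMem ?_
    rintro h ⟨f, g, -, hg, hg0, -⟩
    exact hg0 (hgen.eq_zero hm (hli.ne_zero 0) hg)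
  rw [hempty, IntermediateField.adjoin_empty] at halg
  have h2 : Algebra.IsAlgebraic ℂ K :=
    Algebra.IsAlgebraic.trans ℂ (⊥ : IntermediateField ℂ K) K
  have h3 := e.trdeg_eq
  rw [trdeg_ratFunc, trdeg_eq_zero] at h3
  exact zero_ne_one h3

end Pool.Agent.Helper27.DynMod
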