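import Mathlib

set_option autoImplicit false

namespace Pool.Agent.Helper27.DynMod

/-- The differentials `dx_1, ..., dx_n` form a `K`-basis of `Ω_{K/ℂ}` (equivalently, in
characteristic zero, `x` is a transcendence basis of `K/ℂ`). -/
def IsDiffBasis (K : Type) [Field K] [Algebra ℂ K] {n : ℕ} (x : Fin n → K) : Prop :=
  LinearIndependent K (fun k => KaehlerDifferential.D ℂ K (x k)) ∧
    Submodule.span K (Set.range fun k => KaehlerDifferential.D ℂ K (x k)) = ⊤

/-- `R` is (the local ring of) a prime divisor on some model of the function field `K/ℂ` of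
dimension `n`: a discrete valuation ring of `K` containing `ℂ` whose residue field has
transcendence degree (at least, hence exactly) `n - 1` over `ℂ`. -/
def IsPrimeDivisor (K : Type) [Field K] [Algebra ℂ K] (n : ℕ) (R : ValuationSubring K) : Prop :=
  (∀ c : ℂ, algebraMap ℂ K c ∈ R) ∧ IsDiscreteValuationRing R ∧
    ∃ x : Fin (n - 1) → K, ∀ P : MvPolynomial (Fin (n - 1)) ℂ, P ≠ 0 →
      MvPolynomial.aeval x P ∈ R ∧ (MvPolynomial.aeval x P)⁻¹ ∈ R

/-- `M` is the Jacobian matrix of `y` with respect to `x`: `dy_i = ∑_k M_{ik} dx_k`. -/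
def IsJacobian (K : Type) [Field K] [Algebra ℂ K] {n : ℕ} (x y : Fin n → K)
    (M : Matrix (Fin n) (Fin n) K) : Prop :=
  ∀ i, KaehlerDifferential.D ℂ K (y i) = ∑ k, M i k • KaehlerDifferential.D ℂ K (x k)

/-- `f (dx_1 ∧ ... ∧ dx_n)^{⊗ m}` has no pole along the prime divisor `R`: it is an `R`-linear
combination of tensors `⨂_{j=1}^m (dy_{j,1} ∧ ... ∧ dy_{j,n})` with all `y_{j,i}` in `R`. -/
def IsRegularAlong (K : Type) [Field K] [Algebra ℂ K] {n : ℕ} (x : Fin n → K) (m : ℕ)
    (R : ValuationSubring K) (f : K) : Prop :=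
  f ∈ AddSubmonoid.closure {h : K | ∃ a ∈ R, ∃ (y : Fin m → Fin n → K)
    (M : Fin m → Matrix (Fin n) (Fin n) K), (∀ j i, y j i ∈ R) ∧
      (∀ j, IsJacobian K x (y j) (M j)) ∧ h = a * ∏ j, (M j).det}

/-- `f (dx_1 ∧ ... ∧ dx_n)^{⊗ m}` is regular along every prime divisor of `K/ℂ`; for the function
field of a smooth projective variety `X` these are the global sections of `m K_X`. -/
def IsPluricanonical (K : Type) [Field K] [Algebra ℂ K] {n : ℕ} (x : Fin n → K) (m : ℕ) (f : K) :
    Prop :=
  ∀ R : ValuationSubring K, IsPrimeDivisor K n R → IsRegularAlong K x m R f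

/-- The function field `K/ℂ` is of general type: for some `m ≥ 1`, `K` is algebraic over the field
generated over `ℂ` by the quotients of `m`-canonical forms, that is, the `m`-canonical map of a
smooth projective model is generically finite onto its image (equivalently, the Kodaira dimension
equals the dimension). -/
def IsGeneralType (K : Type) [Field K] [Algebra ℂ K] : Prop :=
  ∃ (n : ℕ) (x : Fin n → K), IsDiffBasis K x ∧ ∃ m : ℕ, 1 ≤ m ∧
    Algebra.IsAlgebraic (IntermediateField.adjoin ℂ {h : K | ∃ f g : K,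
      IsPluricanonical K x m f ∧ IsPluricanonical K x m g ∧ g ≠ 0 ∧ h = f / g}) K

end Pool.Agent.Helper27.DynMod
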