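import Pool.Agent.Helper27.DynMod.Integral

set_option autoImplicit false

open MvPolynomial

namespace Pool.Agent.Helper27.DynMod

variable {N d n : ℕ}

/-- The polynomial ring in the coordinates of the cone over `End[n]`. -/
abbrev BigRing (N d : ℕ) : Type := MvPolynomial (CoefIx N d ⊕ Fin (N + 1)) ℂ

/-- generic coefficient vector -/
noncomputable def genA (N d : ℕ) : CoefIx N d → BigRing N d := fun i => X (Sum.inl i)

/-- generic point -/
noncomputable def genX (N d : ℕ) : Fin (N + 1) → BigRing N d := fun i => X (Sum.inr i)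

/-- coordinates of the `n`-th iterate at the generic point -/
noncomputable def genF (N d n : ℕ) : Fin (N + 1) → BigRing N d := (formMap (genA N d))^[n] (genX N d)

theorem map_genF {S : Type*} [CommSemiring S] (φ : BigRing N d →+* S) (n : ℕ) (i : Fin (N + 1)) :
    φ (genF N d n i) = (formMap (fun j => φ (X (Sum.inl j))))^[n] (fun j => φ (X (Sum.inr j))) i :=
  map_iterate_formMap φ (genA N d) (genX N d) n i

theorem isAlgebraic_of_periodic {Ω : Type} [Field Ω] [Algebra ℂ Ω] [IsAlgClosed Ω]
    (θ : BigRing N d →ₐ[ℂ] Ω) (hn : 1 ≤ n) (hd : 2 ≤ d)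
    (h0 : θ (X (Sum.inr 0)) ≠ 0)
    (h1 : ∀ i, θ (genF N d n i) * θ (X (Sum.inr 0)) = θ (genF N d n 0) * θ (X (Sum.inr i)))
    (h2 : θ (genF N d n 0) ≠ 0)
    (h3 : θ (resMat (genA N d)).det ≠ 0) (g : BigRing N d) :
    IsAlgebraic (Algebra.adjoin ℂ (Set.range (fun i => θ (X (Sum.inl i))) ∪ {θ (X (Sum.inr 0))}))
      (θ g) := by
  set T : Set Ω := Set.range (fun i => θ (X (Sum.inl i))) ∪ {θ (X (Sum.inr 0))} with hT
  have key : IsAlgebraic (IntermediateField.adjoin ℂ T) (θ g) := by
    set k := IntermediateField.adjoin ℂ T with hk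
    have hak : ∀ i, θ (X (Sum.inl i)) ∈ k := fun i =>
      IntermediateField.subset_adjoin ℂ T (Or.inl ⟨i, rfl⟩)
    have hxk : θ (X (Sum.inr 0)) ∈ k := IntermediateField.subset_adjoin ℂ T (Or.inr rfl)
    set a : CoefIx N d → k := fun i => ⟨θ (X (Sum.inl i)), hak i⟩ with ha
    set x : Fin (N + 1) → Ω := fun j => θ (X (Sum.inr j)) with hx
    have hdet : (resMat a).det ≠ 0 := by
      intro hcon
      apply h3
      have e1 : algebraMap k Ω (resMat a).det = θ (resMat (genA N d)).det := by
        have e2 := RingHom.map_det (algebraMap k Ω) (resMat a)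
        have e3 := RingHom.map_det (θ : BigRing N d →+* Ω) (resMat (genA N d))
        rw [RingHom.mapMatrix_apply, map_resMat] at e2 e3
        rw [e2]
        exact e3.symm
      rw [← e1, hcon, map_zero]
    have hF : ∀ i, θ (genF N d n i) = (formMap (fun j => algebraMap k Ω (a j)))^[n] x i :=
      fun i => map_genF (θ : BigRing N d →+* Ω) n i
    set lam : Ω := θ (genF N d n 0) / x 0 with hlam
    have hlam0 : lam ≠ 0 := div_ne_zero h2 h0
    have hFx : (formMap (fun j => algebraMap k Ω (a j)))^[n] x = lam • x := by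
      funext i
      rw [← hF, Pi.smul_apply, smul_eq_mul, hlam, div_mul_eq_mul_div, eq_div_iff h0]
      exact h1 i
    have hpos : 0 < d ^ n - 1 := by
      have : 2 ^ 1 ≤ d ^ n := (Nat.pow_le_pow_left hd 1).trans (Nat.pow_le_pow_right (by omega) hn)
      omega
    obtain ⟨μ, hμ⟩ := IsAlgClosed.exists_pow_nat_eq lam⁻¹ hpos
    have hμ0 : μ ≠ 0 := by
      rintro rfl
      rw [zero_pow hpos.ne'] at hμ
      exact inv_ne_zero hlam0 hμ.symm
    set y : Fin (N + 1) → Ω := μ • x with hy
    have hFy : (formMap (fun j => algebraMap k Ω (a j)))^[n] y = y := by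
      rw [hy, iterate_formMap_smul, hFx, smul_smul]
      congr 1
      have : d ^ n = (d ^ n - 1) + 1 := by omega
      rw [this, pow_succ, hμ]
      field_simp
    have hyint : ∀ i, IsIntegral k (y i) := by
      intro i
      have : Nonempty (Fin n) := ⟨⟨0, hn⟩⟩
      have := isIntegral_cycle (J := Fin n) a hdet hd
        (fun j => (formMap (fun j => algebraMap k Ω (a j)))^[j] y)
        (fun j => if h : (j : ℕ) + 1 < n then ⟨j + 1, h⟩ else ⟨0, hn⟩) (by
          intro j
          rw [← Function.iterate_succ_apply' (formMap (fun j => algebraMap k Ω (a j)))]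
          split_ifs with h
          · rfl
          · have hj : (j : ℕ) + 1 = n := by have := j.2; omega
            rw [Nat.succ_eq_add_one, hj, hFy]
            simp) ⟨0, hn⟩ i
      simpa using this
    have hx0k : IsAlgebraic k (x 0) := by
      have : x 0 = algebraMap k Ω ⟨x 0, hxk⟩ := rfl
      rw [this]
      exact isAlgebraic_algebraMap _
    have hμalg : IsAlgebraic k μ := by
      have : μ = y 0 * (x 0)⁻¹ := by
        rw [hy, Pi.smul_apply, smul_eq_mul, mul_assoc, mul_inv_cancel₀ h0, mul_one]
      rw [this]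
      exact (hyint 0).isAlgebraic.mul hx0k.inv
    have hxalg : ∀ i, IsAlgebraic k (x i) := by
      intro i
      have : x i = y i * μ⁻¹ := by
        rw [hy, Pi.smul_apply, smul_eq_mul]
        field_simp
      rw [this]
      exact (hyint i).isAlgebraic.mul hμalg.inv
    induction g using MvPolynomial.induction_on with
    | C c =>
      have : θ (C c) = algebraMap k Ω (algebraMap ℂ k c) := by
        rw [← IsScalarTower.algebraMap_apply ℂ k Ω]
        exact θ.commutes c
      rw [this]
      exact isAlgebraic_algebraMap _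
    | add p q hp hq => rw [map_add]; exact hp.add hq
    | mul_X p i hp =>
      rw [map_mul]
      refine hp.mul ?_
      rcases i with i | i
      · exact isAlgebraic_algebraMap (a i)
      · exact hxalg i
  open scoped IntermediateField.algebraAdjoinAdjoin in
  exact (IsFractionRing.isAlgebraic_iff (Algebra.adjoin ℂ T) (IntermediateField.adjoin ℂ T) Ω).2 key

end Pool.Agent.Helper27.DynMod
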