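import Pool.Agent.Helper27.DynMod.Action

set_option autoImplicit false

open MvPolynomial

namespace Pool.Agent.Helper27.DynMod

variable {N d n : ℕ}

/-- Products of fewer than `M` of the `z e` span a finite module stable under multiplication. -/
theorem isIntegral_of_prod_mem_span {k Ω E : Type*} [Field k] [Field Ω] [Algebra k Ω] [Fintype E]
    (z : E → Ω) (M : ℕ)
    (h : ∀ m : Multiset E, Multiset.card m = M → (m.map z).prod ∈
      Submodule.span k {w | ∃ m' : Multiset E, Multiset.card m' < M ∧ w = (m'.map z).prod})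
    (e : E) : IsIntegral k (z e) := by
  classical
  set V := Submodule.span k {w | ∃ m' : Multiset E, Multiset.card m' < M ∧ w = (m'.map z).prod}
    with hV
  have hM : 0 < M := by
    by_contra hM
    have hM0 : M = 0 := by omega
    have h1 := h 0 (by simp [hM0])
    have h2 : V = ⊥ := by
      rw [hV, hM0]
      simp
    rw [h2] at h1
    simp at h1
  have h1V : (1 : Ω) ∈ V := Submodule.subset_span ⟨0, by simpa using hM, by simp⟩
  refine isIntegral_of_smul_mem_submodule V ?_ ?_ (z e) ?_
  · intro hbot
    rw [hbot] at h1V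
    simp at h1V
  · refine Submodule.fg_span ?_
    have hfin : {m' : Multiset E | Multiset.card m' < M}.Finite := by
      have : {m' : Multiset E | Multiset.card m' < M} ⊆
          ⋃ j ∈ Finset.range M, Set.range (fun s : Sym E j => (s : Multiset E)) := by
        intro m hm
        simp only [Set.mem_iUnion]
        exact ⟨Multiset.card m, Finset.mem_range.2 hm, ⟨⟨m, rfl⟩, rfl⟩⟩
      refine Set.Finite.subset ?_ this
      exact Set.Finite.biUnion (Finset.finite_toSet _) fun j _ => Set.finite_range _
    refine (hfin.image fun m' => (m'.map z).prod).subset ?_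
    rintro w ⟨m', hm', rfl⟩
    exact ⟨m', hm', rfl⟩
  · intro v hv
    induction hv using Submodule.span_induction with
    | mem x hx =>
      obtain ⟨m', hm', rfl⟩ := hx
      have e1 : z e • (m'.map z).prod = ((e ::ₘ m').map z).prod := by simp
      rw [e1]
      rcases Nat.lt_or_ge (Multiset.card (e ::ₘ m')) M with h3 | h3
      · exact Submodule.subset_span ⟨_, h3, rfl⟩
      · refine h _ ?_
        rw [Multiset.card_cons] at h3 ⊢
        omega
    | zero => simp
    | add x y _ _ hx hy => rw [smul_add]; exact V.add_mem hx hy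
    | smul c x _ hx => rw [smul_comm]; exact V.smul_mem c hx

/-- degree from which every monomial is divisible by some `x_i ^ d` -/
abbrev bigDeg (N d : ℕ) : ℕ := (N + 1) * (d - 1) + 1

theorem exists_count_ge (s : Multiset (Fin (N + 1))) (hs : Multiset.card s = bigDeg N d) :
    ∃ i, d ≤ s.count i := by
  by_contra hcon
  push Not at hcon
  have h1 : ∑ i, s.count i = Multiset.card s := Multiset.sum_count_eq_card (by simp)
  have h2 : ∑ i, s.count i ≤ ∑ _i : Fin (N + 1), (d - 1) :=
    Finset.sum_le_sum fun i _ => by have := hcon i; omega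
  rw [h1, hs] at h2
  simp at h2

/-- a variable dividing the monomial at least `d` times -/
noncomputable def bigIx (s : Sym (Fin (N + 1)) (bigDeg N d)) : Fin (N + 1) :=
  (exists_count_ge (d := d) (s : Multiset (Fin (N + 1))) (Sym.card_coe (s := s))).choose

theorem bigIx_spec (s : Sym (Fin (N + 1)) (bigDeg N d)) :
    d ≤ (s : Multiset (Fin (N + 1))).count (bigIx s) :=
  (exists_count_ge (d := d) (s : Multiset (Fin (N + 1))) (Sym.card_coe (s := s))).choose_spec

/-- the cofactor monomial -/
noncomputable def cofac (s : Sym (Fin (N + 1)) (bigDeg N d)) : Multiset (Fin (N + 1)) :=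
  (s : Multiset (Fin (N + 1))) - Multiset.replicate d (bigIx s)

theorem cofac_add (s : Sym (Fin (N + 1)) (bigDeg N d)) :
    cofac s + Multiset.replicate d (bigIx s) = (s : Multiset (Fin (N + 1))) :=
  tsub_add_cancel_of_le (Multiset.le_count_iff_replicate_le.1 (bigIx_spec s))

theorem card_cofac (s : Sym (Fin (N + 1)) (bigDeg N d)) :
    Multiset.card (cofac s) + d = bigDeg N d := by
  have := congrArg Multiset.card (cofac_add s)
  rwa [Multiset.card_add, Multiset.card_replicate, Sym.card_coe] at this

/-- The matrix of the `X^{s'} F_{i(s)}` in the basis of monomials of degree `bigDeg N d`. -/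
noncomputable def resMat {R : Type*} [CommSemiring R] (a : CoefIx N d → R) :
    Matrix (Sym (Fin (N + 1)) (bigDeg N d)) (Sym (Fin (N + 1)) (bigDeg N d)) R :=
  Matrix.of fun s t => ∑ u : Sym (Fin (N + 1)) d,
    if cofac s + (u : Multiset (Fin (N + 1))) = (t : Multiset (Fin (N + 1))) then
      a (bigIx s, u) else 0

theorem resMat_mul {R : Type*} [CommSemiring R] (a : CoefIx N d → R) (z : Fin (N + 1) → R)
    (s : Sym (Fin (N + 1)) (bigDeg N d)) :
    ∑ t : Sym (Fin (N + 1)) (bigDeg N d), resMat a s t *
      ((t : Multiset (Fin (N + 1))).map z).prod = ((cofac s).map z).prod * formMap a z (bigIx s) := by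
  simp only [resMat, Matrix.of_apply, Finset.sum_mul]
  rw [Finset.sum_comm]
  simp only [formMap, Finset.mul_sum]
  refine Finset.sum_congr rfl fun u _ => ?_
  set t0 : Sym (Fin (N + 1)) (bigDeg N d) := ⟨cofac s + (u : Multiset (Fin (N + 1))), by
    rw [Multiset.card_add, Sym.card_coe, card_cofac]⟩ with ht0
  rw [Finset.sum_eq_single t0]
  · have : ((t0 : Sym (Fin (N + 1)) (bigDeg N d)) : Multiset (Fin (N + 1))) =
        cofac s + (u : Multiset (Fin (N + 1))) := rfl
    rw [if_pos this.symm, this, Multiset.map_add, Multiset.prod_add]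
    ring
  · intro t _ ht
    rw [if_neg, zero_mul]
    intro h
    exact ht (Sym.coe_injective h.symm)
  · simp

theorem map_resMat {R S : Type*} [CommSemiring R] [CommSemiring S] (φ : R →+* S)
    (a : CoefIx N d → R) : (resMat a).map φ = resMat (fun j => φ (a j)) := by
  ext s t
  simp only [resMat, Matrix.map_apply, Matrix.of_apply, map_sum]
  refine Finset.sum_congr rfl fun u _ => ?_
  split_ifs <;> simp

/-- coefficient vector of the power map -/
noncomputable def powCoef (R : Type*) [CommSemiring R] (N d : ℕ) : CoefIx N d → R :=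
  fun p => if (p.2 : Multiset (Fin (N + 1))) = Multiset.replicate d p.1 then 1 else 0

theorem resMat_pow (R : Type*) [CommSemiring R] :
    resMat (powCoef R N d) = 1 := by
  ext s t
  simp only [resMat, Matrix.of_apply, powCoef]
  set u0 : Sym (Fin (N + 1)) d := ⟨Multiset.replicate d (bigIx s), by simp⟩ with hu0
  have hu : (u0 : Multiset (Fin (N + 1))) = Multiset.replicate d (bigIx s) := rfl
  rw [Finset.sum_eq_single u0]
  · rw [hu, if_pos rfl, cofac_add, Matrix.one_apply]
    refine if_congr ?_ rfl rfl
    exact ⟨fun h => Sym.coe_injective h, fun h => by rw [h]⟩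
  · intro u _ hne
    split_ifs with h1 h2
    · exact absurd (Sym.coe_injective (h2.trans hu.symm)) hne
    · rfl
    · rfl
  · simp

theorem exists_le_card {α : Type*} (m : Multiset α) (k : ℕ) (hk : k ≤ Multiset.card m) :
    ∃ m1 ≤ m, Multiset.card m1 = k := by
  induction m using Quotient.inductionOn with
  | h l =>
    refine ⟨(l.take k : List α), ?_, ?_⟩
    · exact Multiset.coe_le.2 (List.take_sublist k l).subperm
    · have : k ≤ l.length := hk
      simpa using this

theorem monomial_eq {k Ω : Type*} [Field k] [Field Ω] [Algebra k Ω] (a : CoefIx N d → k)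
    (hdet : (resMat a).det ≠ 0) (z : Fin (N + 1) → Ω) (t : Sym (Fin (N + 1)) (bigDeg N d)) :
    ((t : Multiset (Fin (N + 1))).map z).prod = ∑ s : Sym (Fin (N + 1)) (bigDeg N d),
      algebraMap k Ω ((resMat a)⁻¹ t s) *
        (((cofac s).map z).prod * formMap (fun i => algebraMap k Ω (a i)) z (bigIx s)) := by
  have hu : IsUnit (resMat a).det := isUnit_iff_ne_zero.2 hdet
  have h1 := Matrix.nonsing_inv_mul (resMat a) hu
  simp only [← resMat_mul, Finset.mul_sum]
  rw [Finset.sum_comm]
  have h2 : ∀ t' : Sym (Fin (N + 1)) (bigDeg N d),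
      ∑ s : Sym (Fin (N + 1)) (bigDeg N d), algebraMap k Ω ((resMat a)⁻¹ t s) *
        (resMat (fun i => algebraMap k Ω (a i)) s t' *
          ((t' : Multiset (Fin (N + 1))).map z).prod) =
      if t = t' then ((t' : Multiset (Fin (N + 1))).map z).prod else 0 := by
    intro t'
    have h3 : ∑ s : Sym (Fin (N + 1)) (bigDeg N d), (resMat a)⁻¹ t s * resMat a s t' =
        (1 : Matrix _ _ k) t t' := by rw [← h1]; rfl
    have h4 := congrArg (algebraMap k Ω) h3
    rw [map_sum] at h4
    simp only [← mul_assoc, ← Finset.sum_mul]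
    have h5 : ∀ s, resMat (fun i => algebraMap k Ω (a i)) s t' = algebraMap k Ω (resMat a s t') := by
      intro s
      rw [← map_resMat]
      rfl
    simp only [h5]
    simp only [map_mul] at h4
    rw [h4, Matrix.one_apply]
    split_ifs <;> simp
  simp only [h2]
  simp

theorem isIntegral_cycle {k Ω : Type*} [Field k] [Field Ω] [Algebra k Ω] (a : CoefIx N d → k)
    (hdet : (resMat a).det ≠ 0) (hd : 2 ≤ d) {J : Type} [Fintype J] [Nonempty J]
    (y : J → Fin (N + 1) → Ω)
    (next : J → J) (hy : ∀ j, formMap (fun i => algebraMap k Ω (a i)) (y j) = y (next j))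
    (j : J) (i : Fin (N + 1)) : IsIntegral k (y j i) := by
  classical
  set M := bigDeg N d with hM
  have hMd : d - 1 ≤ M := by
    rw [hM]
    have : 1 * (d - 1) ≤ (N + 1) * (d - 1) := Nat.mul_le_mul_right _ (by omega)
    simp only [bigDeg]
    omega
  set z : J × Fin (N + 1) → Ω := fun e => y e.1 e.2 with hz
  refine isIntegral_of_prod_mem_span (E := J × Fin (N + 1)) z (Fintype.card J * (M - 1) + 1) ?_
    (j, i)
  intro m hm
  -- find a block with at least `M` factors
  obtain ⟨j0, hj0⟩ : ∃ j0, M ≤ Multiset.card (m.filter fun e => j0 = e.1) := by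
    by_contra hcon
    push Not at hcon
    have h1 : ∑ j, (m.map Prod.fst).count j = Multiset.card (m.map Prod.fst) :=
      Multiset.sum_count_eq_card (by simp)
    have h2 : ∑ j, (m.map Prod.fst).count j ≤ ∑ _j : J, (M - 1) :=
      Finset.sum_le_sum fun j _ => by
        rw [Multiset.count_map]
        have := hcon j
        omega
    rw [h1, Multiset.card_map, hm] at h2
    simp at h2
  obtain ⟨m1, hm1, hm1c⟩ := exists_le_card _ M hj0
  have hm1' : m1 ≤ m := hm1.trans (Multiset.filter_le _ _)
  obtain ⟨m2, rfl⟩ := Multiset.le_iff_exists_add.1 hm1'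
  have hfst : ∀ e ∈ m1, e.1 = j0 := by
    intro e he
    exact (Multiset.mem_filter.1 (Multiset.mem_of_le hm1 he)).2.symm
  set t : Sym (Fin (N + 1)) M := ⟨m1.map Prod.snd, by rw [Multiset.card_map, hm1c]⟩ with ht
  have htc : (t : Multiset (Fin (N + 1))) = m1.map Prod.snd := rfl
  have e1 : (m1.map z).prod = ((t : Multiset (Fin (N + 1))).map (y j0)).prod := by
    rw [htc, Multiset.map_map]
    congr 1
    refine Multiset.map_congr rfl fun e he => ?_
    rw [hz, Function.comp_apply]
    simp only [hfst e he]
  rw [Multiset.map_add, Multiset.prod_add, e1, monomial_eq a hdet (y j0) t, Finset.sum_mul]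
  refine Submodule.sum_mem _ fun s _ => ?_
  rw [mul_assoc, ← Algebra.smul_def]
  refine Submodule.smul_mem _ _ (Submodule.subset_span ?_)
  refine ⟨(cofac s).map (fun i => (j0, i)) + {(next j0, bigIx s)} + m2, ?_, ?_⟩
  · have h1 := card_cofac s
    rw [Multiset.card_add, hm1c] at hm
    rw [Multiset.card_add, Multiset.card_add, Multiset.card_map, Multiset.card_singleton, ← hm]
    rw [← hM] at h1
    omega
  · rw [hy]
    simp only [Multiset.map_add, Multiset.prod_add, Multiset.map_map, Multiset.map_singleton,
      Multiset.prod_singleton, hz]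
    rfl

end Pool.Agent.Helper27.DynMod
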