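import Pool.Agent.Helper27.DynMod.Generic

set_option autoImplicit false

open MvPolynomial

namespace Pool.Agent.Helper27.DynMod

variable {N d n : ℕ}

/-- The ideal of a subset of the cone over `End[n]`. -/
noncomputable def idealOf (W : Set (PtCone N d n)) : Ideal (BigRing N d) :=
  ⨅ p ∈ W, RingHom.ker (eval p.coord)

theorem mem_idealOf {W : Set (PtCone N d n)} {g : BigRing N d} :
    g ∈ idealOf W ↔ ∀ p ∈ W, eval p.coord g = 0 := by
  simp [idealOf, Ideal.mem_iInf, RingHom.mem_ker]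

theorem PtCone.isOpen_ne (g : BigRing N d) : IsOpen {p : PtCone N d n | eval p.coord g ≠ 0} :=
  (Aff.isOpen_basic g).preimage continuous_subtype_val

theorem isPrime_idealOf {W : Set (PtCone N d n)} (hW : IsIrreducible W) : (idealOf W).IsPrime := by
  obtain ⟨w, hw⟩ := hW.nonempty
  refine ⟨?_, ?_⟩
  · intro h
    have h1 : (1 : BigRing N d) ∈ idealOf W := by rw [h]; trivial
    have := mem_idealOf.1 h1 w hw
    simp at this
  · intro f g hfg
    by_contra hcon
    push Not at hcon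
    obtain ⟨hf, hg⟩ := hcon
    rw [mem_idealOf] at hf hg
    push Not at hf hg
    obtain ⟨p, hp, hfp⟩ := hf
    obtain ⟨q, hq, hgq⟩ := hg
    obtain ⟨r, hr, h1, h2⟩ := hW.2 _ _ (PtCone.isOpen_ne f) (PtCone.isOpen_ne g) ⟨p, hp, hfp⟩
      ⟨q, hq, hgq⟩
    have := mem_idealOf.1 hfg r hr
    rw [map_mul] at this
    rcases mul_eq_zero.1 this with h | h
    · exact h1 h
    · exact h2 h

theorem PtCone.exists_poly_of_isClosed {W : Set (PtCone N d n)} (hW : IsClosed W)
    {w : PtCone N d n} (hw : w ∉ W) : ∃ g : BigRing N d, eval w.coord g ≠ 0 ∧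
      ∀ p ∈ W, eval p.coord g = 0 := by
  obtain ⟨C, hC, rfl⟩ := isClosed_induced_iff.1 hW
  obtain ⟨g, h1, h2⟩ := Aff.exists_poly_of_isClosed hC hw
  exact ⟨g, h1, fun p hp => h2 _ hp⟩

/-- Elements of the subalgebra generated by the coefficients and `x_0`. -/
theorem exists_lift_adjoin {Ω : Type} [Field Ω] [Algebra ℂ Ω] (θ : BigRing N d →ₐ[ℂ] Ω)
    {r : Ω} (hr : r ∈ Algebra.adjoin ℂ
      (Set.range (fun i => θ (X (Sum.inl i))) ∪ {θ (X (Sum.inr 0))})) :
    ∃ P : Polynomial (MvPolynomial (CoefIx N d) ℂ),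
      θ (P.eval₂ (rename Sum.inl : MvPolynomial (CoefIx N d) ℂ →ₐ[ℂ] BigRing N d).toRingHom
        (X (Sum.inr 0))) = r := by
  induction hr using Algebra.adjoin_induction with
  | mem x hx =>
    rcases hx with ⟨i, rfl⟩ | hx
    · refine ⟨Polynomial.C (X i), ?_⟩
      simp
    · refine ⟨Polynomial.X, ?_⟩
      rw [Set.mem_singleton_iff] at hx
      simp [hx]
  | algebraMap c =>
    refine ⟨Polynomial.C (C c), ?_⟩
    simp only [Polynomial.eval₂_C]
    have : (rename Sum.inl : MvPolynomial (CoefIx N d) ℂ →ₐ[ℂ] BigRing N d).toRingHom (C c) =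
      algebraMap ℂ (BigRing N d) c := by simp [algebraMap_eq]
    rw [this]
    exact θ.commutes c
  | add x y _ _ hx hy =>
    obtain ⟨P, hP⟩ := hx
    obtain ⟨Q, hQ⟩ := hy
    exact ⟨P + Q, by rw [Polynomial.eval₂_add, map_add, hP, hQ]⟩
  | mul x y _ _ hx hy =>
    obtain ⟨P, hP⟩ := hx
    obtain ⟨Q, hQ⟩ := hy
    exact ⟨P * Q, by rw [Polynomial.eval₂_mul, map_mul, hP, hQ]⟩

theorem range_of_adjoin {Ω : Type} [Field Ω] [Algebra ℂ Ω] (θ : BigRing N d →ₐ[ℂ] Ω)
    (T : Set Ω) (hT : ∀ t ∈ T, ∃ h, θ h = t) (g : BigRing N d) {t : Ω}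
    (ht : t ∈ Algebra.adjoin (Algebra.adjoin ℂ T) {θ g}) : ∃ h, θ h = t := by
  have hT' : ∀ t ∈ Algebra.adjoin ℂ T, ∃ h, θ h = t := by
    intro t ht
    have : Algebra.adjoin ℂ T ≤ θ.range := Algebra.adjoin_le fun x hx => hT x hx
    exact this ht
  induction ht using Algebra.adjoin_induction with
  | mem x hx =>
    rw [Set.mem_singleton_iff] at hx
    exact ⟨g, hx.symm⟩
  | algebraMap c => exact hT' c.1 c.2
  | add x y _ _ hx hy =>
    obtain ⟨P, hP⟩ := hx
    obtain ⟨Q, hQ⟩ := hy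
    exact ⟨P + Q, by rw [map_add, hP, hQ]⟩
  | mul x y _ _ hx hy =>
    obtain ⟨P, hP⟩ := hx
    obtain ⟨Q, hQ⟩ := hy
    exact ⟨P * Q, by rw [map_mul, hP, hQ]⟩

theorem eval_eval₂ (p : CoefIx N d ⊕ Fin (N + 1) → ℂ)
    (P : Polynomial (MvPolynomial (CoefIx N d) ℂ)) :
    eval p (P.eval₂ (rename Sum.inl : MvPolynomial (CoefIx N d) ℂ →ₐ[ℂ] BigRing N d).toRingHom
        (X (Sum.inr 0))) =
      (P.map (eval (fun i => p (Sum.inl i)))).eval (p (Sum.inr 0)) := by
  rw [Polynomial.hom_eval₂, Polynomial.eval_map]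
  congr 1
  · ext i <;> simp
  · simp

theorem genF_rel (p : PtCone N d n) (i j : Fin (N + 1)) :
    eval p.coord (genF N d n i) * p.pt j = eval p.coord (genF N d n j) * p.pt i := by
  obtain ⟨l, hl⟩ := p.2.2.2.1
  have h1 : ∀ i, eval p.coord (genF N d n i) = l * p.pt i := by
    intro i
    rw [map_genF]
    simp only [eval_X]
    have := congrFun hl i
    exact this
  rw [h1, h1]
  ring

/-- The key incomparability statement. -/
theorem subset_of_subset (hn : 1 ≤ n) (hd : 2 ≤ d) {W W' : Set (PtCone N d n)}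
    (hWc : IsClosed W) (hWi : IsIrreducible W) (hWi' : IsIrreducible W') (hWW' : W ⊆ W')
    (hscale : ∀ p ∈ W, ∀ μ : ℂ, μ ≠ 0 → ∃ q ∈ W, q.map.coef = p.map.coef ∧ q.pt = μ • p.pt)
    (p0 : PtCone N d n) (hp0 : p0 ∈ W) (hp0c : p0.map.coef = powCoef ℂ N d) (hp0x : p0.pt 0 ≠ 0)
    (hp0F : eval p0.coord (genF N d n 0) ≠ 0)
    (hdense : ∀ C : MvPolynomial (CoefIx N d) ℂ, (∀ p ∈ W, eval p.map.coef C = 0) →
      ∀ p ∈ W', eval p.map.coef C = 0) : W' ⊆ W := by
  intro w hw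
  by_contra hwW
  obtain ⟨g, hg1, hg2⟩ := PtCone.exists_poly_of_isClosed hWc hwW
  have hprime := isPrime_idealOf hWi'
  let D := BigRing N d ⧸ idealOf W'
  let K := FractionRing D
  let Ω := AlgebraicClosure K
  let θ : BigRing N d →ₐ[ℂ] Ω :=
    (IsScalarTower.toAlgHom ℂ K Ω).comp ((IsScalarTower.toAlgHom ℂ D K).comp
      (Ideal.Quotient.mkₐ ℂ (idealOf W')))
  have hθ : ∀ h, θ h = 0 ↔ ∀ p ∈ W', eval p.coord h = 0 := by
    intro h
    rw [← mem_idealOf, ← Ideal.Quotient.eq_zero_iff_mem]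
    have e1 : θ h = algebraMap K Ω (algebraMap D K (Ideal.Quotient.mk (idealOf W') h)) := rfl
    rw [e1]
    constructor
    · intro h1
      have h2 := (algebraMap K Ω).injective (h1.trans (map_zero _).symm)
      exact IsFractionRing.injective D K (h2.trans (map_zero _).symm)
    · intro h1
      rw [h1, map_zero, map_zero]
  have hp0' : p0 ∈ W' := hWW' hp0
  have h0 : θ (X (Sum.inr 0)) ≠ 0 := by
    intro h
    have := (hθ _).1 h p0 hp0'
    rw [eval_X] at this
    exact hp0x this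
  have h1 : ∀ i, θ (genF N d n i) * θ (X (Sum.inr 0)) = θ (genF N d n 0) * θ (X (Sum.inr i)) := by
    intro i
    rw [← map_mul, ← map_mul, ← sub_eq_zero, ← map_sub, hθ]
    intro p _
    rw [map_sub, map_mul, map_mul, eval_X, eval_X]
    have := genF_rel p i 0
    rw [sub_eq_zero]
    exact this
  have h2 : θ (genF N d n 0) ≠ 0 := fun h => hp0F ((hθ _).1 h p0 hp0')
  have h3 : θ (resMat (genA N d)).det ≠ 0 := by
    intro h
    have h4 := (hθ _).1 h p0 hp0'
    rw [RingHom.map_det, RingHom.mapMatrix_apply, map_resMat] at h4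
    have h5 : (fun j => eval p0.coord (genA N d j)) = powCoef ℂ N d := by
      rw [← hp0c]
      funext j
      simp only [genA, eval_X]
      rfl
    rw [h5, resMat_pow, Matrix.det_one] at h4
    exact one_ne_zero h4
  have halg := isAlgebraic_of_periodic θ hn hd h0 h1 h2 h3 g
  have hg0 : θ g ≠ 0 := fun h => hg1 ((hθ _).1 h w hw)
  obtain ⟨t, ht, r, hr, hrt⟩ := halg.exists_nonzero_eq_adjoin_mul (mem_nonZeroDivisors_of_ne_zero hg0)
  obtain ⟨h, rfl⟩ := range_of_adjoin θ _ (by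
    rintro t (⟨i, rfl⟩ | ht)
    · exact ⟨_, rfl⟩
    · rw [Set.mem_singleton_iff] at ht
      exact ⟨_, ht.symm⟩) g ht
  obtain ⟨P, hP⟩ := exists_lift_adjoin θ r.2
  have hPr : θ (g * h - P.eval₂ (rename Sum.inl :
      MvPolynomial (CoefIx N d) ℂ →ₐ[ℂ] BigRing N d).toRingHom (X (Sum.inr 0))) = 0 := by
    rw [map_sub, map_mul, hP, hrt]
    exact sub_self _
  rw [hθ] at hPr
  -- `P` vanishes on `W`
  have hPW : ∀ p ∈ W, (P.map (eval p.map.coef)).eval (p.pt 0) = 0 := by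
    intro p hp
    have h4 := hPr p (hWW' hp)
    rw [map_sub, map_mul, hg2 p hp, zero_mul, zero_sub, neg_eq_zero, eval_eval₂] at h4
    exact h4
  have hcoef : ∀ p ∈ W, p.pt 0 ≠ 0 → P.map (eval p.map.coef) = 0 := by
    intro p hp hx
    refine Polynomial.eq_zero_of_infinite_isRoot _ ?_
    refine Set.Infinite.mono (s := {0}ᶜ) ?_ (Set.finite_singleton (0 : ℂ)).infinite_compl
    intro μ hμ
    obtain ⟨q, hq, hqc, hqx⟩ := hscale p hp (μ / p.pt 0) (div_ne_zero hμ hx)
    have h4 := hPW q hq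
    rw [hqc, hqx, Pi.smul_apply, smul_eq_mul, div_mul_cancel₀ _ hx] at h4
    exact h4
  have hcoefW : ∀ (l : ℕ), ∀ p ∈ W, eval p.map.coef (P.coeff l) = 0 := by
    intro l p hp
    by_contra hne
    have hopen : IsOpen {p : PtCone N d n | eval p.map.coef (P.coeff l) ≠ 0} := by
      have h4 := PtCone.isOpen_ne (n := n) (rename Sum.inl (P.coeff l) : BigRing N d)
      convert h4 using 1
      ext p
      simp only [Set.mem_ofPred_eq, eval_rename]
      rfl
    obtain ⟨q, hq, h5, h6⟩ := hWi.2 _ _ hopen (PtCone.isOpen_ne (X (Sum.inr 0)))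
      ⟨p, hp, hne⟩ ⟨p0, hp0, by rw [Set.mem_ofPred_eq, eval_X]; exact hp0x⟩
    rw [Set.mem_ofPred_eq, eval_X] at h6
    have h7 := hcoef q hq h6
    have h8 := congrArg (fun R => R.coeff l) h7
    simp only [Polynomial.coeff_map, Polynomial.coeff_zero] at h8
    exact h5 h8
  have hP0 : P.eval₂ (rename Sum.inl :
      MvPolynomial (CoefIx N d) ℂ →ₐ[ℂ] BigRing N d).toRingHom (X (Sum.inr 0)) ∈ idealOf W' := by
    rw [mem_idealOf]
    intro p hp
    rw [eval_eval₂]
    have : P.map (eval fun i => p.coord (Sum.inl i)) = 0 := by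
      ext l
      rw [Polynomial.coeff_map, Polynomial.coeff_zero]
      exact hdense _ (hcoefW l) p hp
    rw [this, Polynomial.eval_zero]
  have h9 : (r : Ω) = 0 := by
    rw [← hP, hθ]
    exact mem_idealOf.1 hP0
  exact hr (Subtype.ext h9)

end Pool.Agent.Helper27.DynMod
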