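import Pool.Agent.Helper27.DynMod.Component

set_option autoImplicit false

open MvPolynomial

namespace Pool.Agent.Helper27.DynMod

variable {N d n : ℕ}

/-- directional derivatives of polynomial functions in the point variables -/
theorem hasDerivAt_line (a : CoefIx N d → ℂ) (g : BigRing N d) (x v : Fin (N + 1) → ℂ) :
    HasDerivAt (fun t : ℂ => eval (Sum.elim a (x + t • v)) g)
      (∑ k, eval (Sum.elim a x) (pderiv (Sum.inr k) g) * v k) 0 := by
  have hx0 : x + (0 : ℂ) • v = x := by simp
  induction g using MvPolynomial.induction_on with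
  | C c =>
    have h1 : HasDerivAt (fun _ : ℂ => c) 0 0 := hasDerivAt_const 0 c
    simpa using h1
  | add p q hp hq =>
    have h1 := hp.add hq
    refine (h1.congr_deriv ?_).congr_of_eventuallyEq ?_
    · simp only [map_add, add_mul, Finset.sum_add_distrib]
    · exact Filter.Eventually.of_forall fun t => by simp
  | mul_X p i hp =>
    rcases i with i | j
    · have h1 := hp.mul_const (a i)
      refine (h1.congr_deriv ?_).congr_of_eventuallyEq ?_
      · rw [Finset.sum_mul]
        refine Finset.sum_congr rfl fun k _ => ?_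
        rw [pderiv_mul, pderiv_X_of_ne (by simp), mul_zero, add_zero, map_mul, eval_X,
          Sum.elim_inl]
        ring
      · exact Filter.Eventually.of_forall fun t => by simp
    · have h2 : HasDerivAt (fun t : ℂ => x j + t * v j) (v j) 0 := by
        have := ((hasDerivAt_id (0 : ℂ)).mul_const (v j)).const_add (x j)
        simpa using this
      have h1 := hp.mul h2
      refine (h1.congr_deriv ?_).congr_of_eventuallyEq ?_
      · rw [hx0]
        have h3 : ∀ k, eval (Sum.elim a x) (pderiv (Sum.inr k) (p * X (Sum.inr j))) * v k =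
            eval (Sum.elim a x) (pderiv (Sum.inr k) p) * v k * x j +
              (if k = j then eval (Sum.elim a x) p * v k else 0) := by
          intro k
          rw [pderiv_mul]
          by_cases hk : k = j
          · subst hk
            rw [pderiv_X_self, if_pos rfl, map_add, map_mul, map_mul, map_one, eval_X,
              Sum.elim_inr]
            ring
          · rw [pderiv_X_of_ne (by
              intro h
              exact hk (Sum.inr_injective h).symm), mul_zero, add_zero, if_neg hk, add_zero,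
              map_mul, eval_X, Sum.elim_inr]
            ring
        simp only [h3, Finset.sum_add_distrib, Finset.sum_ite_eq', Finset.mem_univ, if_true,
          ← Finset.sum_mul]
        ring
      · exact Filter.Eventually.of_forall fun t => by simp

/-- the Jacobian matrix of the `n`-th iterate at `x` -/
noncomputable def jac (n : ℕ) (a : CoefIx N d → ℂ) (x : Fin (N + 1) → ℂ) : Mat N :=
  Matrix.of fun i k => eval (Sum.elim a x) (pderiv (Sum.inr k) (genF N d n i))

theorem eval_genF (n : ℕ) (a : CoefIx N d → ℂ) (x : Fin (N + 1) → ℂ) (i : Fin (N + 1)) :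
    eval (Sum.elim a x) (genF N d n i) = (formMap a)^[n] x i := by
  rw [map_genF]
  simp only [eval_X]
  rfl

theorem hasDerivAt_iterate (n : ℕ) (a : CoefIx N d → ℂ) (x v : Fin (N + 1) → ℂ)
    (i : Fin (N + 1)) :
    HasDerivAt (fun t : ℂ => (formMap a)^[n] (x + t • v) i) ((jac n a x).mulVec v i) 0 := by
  have h := hasDerivAt_line a (genF N d n i) x v
  simp only [eval_genF] at h
  exact h

theorem jac_conj {A : GL (Fin (N + 1)) ℂ} {l : ℂˣ} {a b : CoefIx N d → ℂ} (h : Conj A l a b)
    (n : ℕ) (m : ℂ) (hm : m ≠ 0) : ∃ ν : ℂ, ν ≠ 0 ∧ ∀ x : Fin (N + 1) → ℂ,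
      (formMap b)^[n] (m • ((A⁻¹ : GL (Fin (N + 1)) ℂ) : Mat N).mulVec x) =
        (ν * m) • ((A⁻¹ : GL (Fin (N + 1)) ℂ) : Mat N).mulVec ((formMap a)^[n] x) ∧
      (jac n b (m • ((A⁻¹ : GL (Fin (N + 1)) ℂ) : Mat N).mulVec x)).trace =
        ν * (jac n a x).trace := by
  obtain ⟨ν, hν, hit⟩ := h.iterate n
  have hF : ∀ x, (formMap b)^[n] (m • ((A⁻¹ : GL (Fin (N + 1)) ℂ) : Mat N).mulVec x) =
      (ν * m ^ d ^ n) • ((A⁻¹ : GL (Fin (N + 1)) ℂ) : Mat N).mulVec ((formMap a)^[n] x) := by
    intro x
    rw [hit, Matrix.mulVec_smul, GL_mulVec_inv_mulVec, iterate_formMap_smul, Matrix.mulVec_smul,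
      smul_smul]
  refine ⟨ν * m ^ d ^ n * m⁻¹, mul_ne_zero (mul_ne_zero hν (pow_ne_zero _ hm)) (inv_ne_zero hm),
    fun x => ⟨?_, ?_⟩⟩
  · rw [hF, mul_assoc, mul_assoc, inv_mul_cancel₀ hm, mul_one]
  · set B : Mat N := ((A⁻¹ : GL (Fin (N + 1)) ℂ) : Mat N) with hB
    have hBA : B * (A : Mat N) = 1 := by
      rw [hB, ← Units.val_mul, inv_mul_cancel]; rfl
    set y := m • B.mulVec x with hy
    have key : ∀ v, (jac n b y).mulVec (m • B.mulVec v) =
        (ν * m ^ d ^ n) • B.mulVec ((jac n a x).mulVec v) := by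
      intro v
      funext i
      have h1 := hasDerivAt_iterate n b y (m • B.mulVec v) i
      have h2 : HasDerivAt (fun t : ℂ => (ν * m ^ d ^ n) * ∑ j, B i j *
          (formMap a)^[n] (x + t • v) j)
          ((ν * m ^ d ^ n) * ∑ j, B i j * (jac n a x).mulVec v j) 0 := by
        refine HasDerivAt.const_mul _ ?_
        refine HasDerivAt.fun_sum fun j _ => ?_
        exact (hasDerivAt_iterate n a x v j).const_mul _
      have h3 : (fun t : ℂ => (formMap b)^[n] (y + t • (m • B.mulVec v)) i) =
          fun t : ℂ => (ν * m ^ d ^ n) * ∑ j, B i j * (formMap a)^[n] (x + t • v) j := by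
        funext t
        have h4 : y + t • (m • B.mulVec v) = m • B.mulVec (x + t • v) := by
          rw [hy, Matrix.mulVec_add, Matrix.mulVec_smul, smul_add, smul_comm t m]
        rw [h4, hF]
        rfl
      rw [h3] at h1
      exact h1.unique h2
    have hmat : jac n b y = (ν * m ^ d ^ n * m⁻¹) • (B * jac n a x * (A : Mat N)) := by
      refine Matrix.toLin'.injective ?_
      refine LinearMap.ext fun v => ?_
      rw [Matrix.toLin'_apply, Matrix.toLin'_apply]
      have h1 := key ((A : Mat N).mulVec (m⁻¹ • v))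
      rw [Matrix.mulVec_mulVec, hBA, Matrix.one_mulVec, smul_smul, mul_inv_cancel₀ hm,
        one_smul] at h1
      rw [h1, Matrix.smul_mulVec, Matrix.mulVec_smul, Matrix.mulVec_smul, Matrix.mulVec_smul,
        Matrix.mulVec_mulVec, Matrix.mulVec_mulVec, smul_smul, Matrix.mul_assoc]
    rw [hmat, Matrix.trace_smul, Matrix.mul_assoc, Matrix.trace_mul_comm, Matrix.mul_assoc]
    have hAB : (A : Mat N) * B = 1 := by
      rw [hB, ← Units.val_mul, mul_inv_cancel]; rfl
    rw [hAB, Matrix.mul_one, smul_eq_mul]

end Pool.Agent.Helper27.DynMod
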