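import Pool.Agent.Helper27.DynMod.Trace

set_option autoImplicit false

open MvPolynomial

namespace Pool.Agent.Helper27.DynMod

variable {N d n : ℕ}

/-- the scalar `λ` with `F^n(x) = λ x` -/
noncomputable def lam (p : PtCone N d n) : ℂ := p.2.2.2.1.choose

theorem lam_spec (p : PtCone N d n) : (formMap p.map.coef)^[n] p.pt = lam p • p.pt :=
  p.2.2.2.1.choose_spec

theorem pt_ne_zero (p : PtCone N d n) : p.pt ≠ 0 := p.2.2.1

theorem iterate_ne_zero {a : CoefIx N d → ℂ} (ha : IsEndo a) (k : ℕ) {x : Fin (N + 1) → ℂ}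
    (hx : x ≠ 0) : (formMap a)^[k] x ≠ 0 := by
  induction k with
  | zero => simpa using hx
  | succ k ih =>
    rw [Function.iterate_succ_apply']
    exact fun h => ih (ha _ h)

theorem lam_ne_zero (p : PtCone N d n) : lam p ≠ 0 := by
  intro h
  have h1 := lam_spec p
  rw [h, zero_smul] at h1
  exact iterate_ne_zero p.2.1 n (pt_ne_zero p) h1

theorem lam_unique (p : PtCone N d n) {c : ℂ} (h : (formMap p.map.coef)^[n] p.pt = c • p.pt) :
    lam p = c := by
  rw [lam_spec] at h
  exact smul_left_injective ℂ (pt_ne_zero p) h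

/-- The trace of the derivative of the `n`-th iterate at the marked point, normalized. -/
noncomputable def traceFn (N d n : ℕ) : ModuliPt N d n → ℂ :=
  Quotient.lift (s := ptSetoid N d n)
    (fun p => (jac n p.map.coef p.pt).trace / lam p) (by
      rintro p q ⟨A, l, m, h, h'⟩
      obtain ⟨ν, hν, hj⟩ := jac_conj h n (m : ℂ) m.ne_zero
      obtain ⟨h1, h2⟩ := hj p.pt
      rw [← h'] at h1 h2
      have h3 : lam q = ν * lam p := by
        apply lam_unique
        rw [h1, lam_spec, Matrix.mulVec_smul, h', smul_smul, smul_smul]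
        congr 1
        ring
      show (jac n p.map.coef p.pt).trace / lam p = (jac n q.map.coef q.pt).trace / lam q
      rw [h2, h3, mul_div_mul_left _ _ hν])

theorem traceFn_mkPt (p : PtCone N d n) :
    traceFn N d n (mkPt p) = (jac n p.map.coef p.pt).trace / lam p := rfl

theorem coord_eq (p : PtCone N d n) : p.coord = Sum.elim p.map.coef p.pt := by
  funext i
  rcases i with i | i <;> rfl

theorem regularAt_traceFn (m : ModuliPt N d n) : RegularAt (traceFn N d n) m := by
  refine ⟨Set.univ, isOpen_univ, trivial, fun x _ => ?_⟩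
  obtain ⟨j, hj⟩ : ∃ j, x.pt j ≠ 0 := by
    by_contra hcon
    push Not at hcon
    exact pt_ne_zero x (funext hcon)
  refine ⟨{y | eval y.coord (X (Sum.inr j)) ≠ 0}, PtCone.isOpen_ne _, ?_,
    (∑ k, pderiv (Sum.inr k) (genF N d n k)) * X (Sum.inr j), genF N d n j, fun y hy => ?_⟩
  · rw [Set.mem_ofPred_eq, eval_X]
    exact hj
  · rw [Set.mem_ofPred_eq, eval_X] at hy
    have hy' : y.pt j ≠ 0 := hy
    have h1 : eval y.coord (genF N d n j) = lam y * y.pt j := by
      rw [coord_eq, eval_genF, lam_spec]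
      rfl
    refine ⟨?_, ?_⟩
    · rw [h1]
      exact mul_ne_zero (lam_ne_zero y) hy'
    · rw [h1, map_mul, eval_X, map_sum]
      have h2 : (y.coord (Sum.inr j)) = y.pt j := rfl
      have h3 : ∑ k, eval y.coord (pderiv (Sum.inr k) (genF N d n k)) =
          (jac n y.map.coef y.pt).trace := by
        rw [coord_eq]
        rfl
      rw [h2, h3, mul_div_mul_right _ _ hy']
      rfl

/-! ## Value on the family -/

theorem iterate_fam_ne_last (hd : 1 ≤ d) (c : ℂ) (z : Fin (N + 1) → ℂ) (k : ℕ)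
    {i : Fin (N + 1)} (hi : i ≠ Fin.last N) : (formMap (famCoef N d c))^[k] z i = z i ^ d ^ k := by
  induction k generalizing z with
  | zero => simp
  | succ k ih =>
    rw [Function.iterate_succ_apply, ih, formMap_fam hd, if_neg hi, add_zero, ← pow_mul]
    congr 1
    ring

theorem iterate_fam_last (hN : 1 ≤ N) (hd : 1 ≤ d) (c : ℂ) (z : Fin (N + 1) → ℂ) (hz : z 0 = 1)
    (k : ℕ) : (formMap (famCoef N d c))^[k] z (Fin.last N) =
      (fun t : ℂ => t ^ d + c * t)^[k] (z (Fin.last N)) := by
  induction k generalizing z with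
  | zero => simp
  | succ k ih =>
    have h0 : (0 : Fin (N + 1)) ≠ Fin.last N := by
      intro h
      have := congrArg Fin.val h
      simp at this
      omega
    rw [Function.iterate_succ_apply, ih]
    · rw [formMap_fam hd, if_pos rfl, hz, Function.iterate_succ_apply]
      simp
    · rw [formMap_fam hd, if_neg h0, hz]
      simp

/-- the constant part of the trace -/
noncomputable def traceConst (N d n : ℕ) : ℂ :=
  ∑ k ∈ Finset.univ.erase (Fin.last N), (d ^ n : ℕ) * basePt N (rootZ d n) k ^ (d ^ n - 1)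

theorem mulVec_single_self (M : Mat N) (k : Fin (N + 1)) :
    M.mulVec (Pi.single k 1) k = M k k := by
  simp

theorem jac_fam_ne_last (hd : 1 ≤ d) (c : ℂ) (x : Fin (N + 1) → ℂ) {k : Fin (N + 1)}
    (hk : k ≠ Fin.last N) :
    jac n (famCoef N d c) x k k = (d ^ n : ℕ) * x k ^ (d ^ n - 1) := by
  have h1 := hasDerivAt_iterate n (famCoef N d c) x (Pi.single k 1) k
  simp only [iterate_fam_ne_last hd c _ n hk] at h1
  have h2 := mulVec_single_self (jac n (famCoef N d c) x) k
  rw [h2] at h1
  have h3 : HasDerivAt (fun t : ℂ => (x k + t) ^ d ^ n) ((d ^ n : ℕ) * x k ^ (d ^ n - 1)) 0 := by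
    have h4 : HasDerivAt (fun t : ℂ => x k + t) 1 0 := (hasDerivAt_id 0).const_add (x k)
    have h5 := h4.fun_pow (d ^ n)
    rw [add_zero, mul_one] at h5
    exact h5
  have h6 : (fun t : ℂ => (x + t • (Pi.single k 1 : Fin (N + 1) → ℂ)) k ^ d ^ n) =
      fun t : ℂ => (x k + t) ^ d ^ n := by
    funext t
    simp
  rw [h6] at h1
  exact h1.unique h3

theorem jac_fam_last (hN : 1 ≤ N) (hd : 2 ≤ d) (c : ℂ) (x : Fin (N + 1) → ℂ) (hx0 : x 0 = 1)
    (hxl : x (Fin.last N) = 0) :
    jac n (famCoef N d c) x (Fin.last N) (Fin.last N) = c ^ n := by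
  have h1 := hasDerivAt_iterate n (famCoef N d c) x (Pi.single (Fin.last N) 1) (Fin.last N)
  have h2 := mulVec_single_self (jac n (famCoef N d c) x) (Fin.last N)
  rw [h2] at h1
  have h0 : (0 : Fin (N + 1)) ≠ Fin.last N := by
    intro h
    have := congrArg Fin.val h
    simp at this
    omega
  have h6 : (fun t : ℂ => (formMap (famCoef N d c))^[n]
      (x + t • (Pi.single (Fin.last N) 1 : Fin (N + 1) → ℂ)) (Fin.last N)) =
      (fun t : ℂ => t ^ d + c * t)^[n] := by
    funext t
    rw [iterate_fam_last hN (by omega)]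
    · simp [hxl]
    · simp [hx0, h0]
  rw [h6] at h1
  have h3 : HasDerivAt (fun t : ℂ => t ^ d + c * t) c 0 := by
    have h4 : HasDerivAt (fun t : ℂ => t ^ d) (d * 0 ^ (d - 1)) 0 := hasDerivAt_pow d 0
    have h5 : HasDerivAt (fun t : ℂ => c * t) c 0 := by
      simpa using (hasDerivAt_id (0 : ℂ)).const_mul c
    have h7 := h4.add h5
    rw [zero_pow (by omega), mul_zero, zero_add] at h7
    exact h7
  have h8 : HasDerivAt (fun t : ℂ => t ^ d + c * t)^[n] (c ^ n) 0 := by
    have h9 : (fun t : ℂ => t ^ d + c * t) 0 = 0 := by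
      show (0 : ℂ) ^ d + c * 0 = 0
      rw [zero_pow (by omega), mul_zero, add_zero]
    exact HasDerivAt.iterate 0 h3 h9 n
  exact h1.unique h8

theorem traceFn_fam (hN : 2 ≤ N) (hd : 2 ≤ d) (hn : 1 ≤ n) (c : ℂ) :
    traceFn N d n (mkPt (famPt hN hd hn c)) = traceConst N d n + c ^ n := by
  have hζn : rootZ d n ^ d ^ n = rootZ d n := by
    have h1 : 1 ≤ d ^ n := Nat.one_le_pow _ _ (by omega)
    have : d ^ n = (d ^ n - 1) + 1 := by omega
    rw [this, pow_succ, (rootZ_spec hd hn).pow_eq_one, one_mul]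
  have hlam : lam (famPt hN hd hn c) = 1 := by
    apply lam_unique
    rw [famPt_coef, famPt_pt, iterate_fam_basePt hN (by omega), hζn, one_smul]
  rw [traceFn_mkPt, hlam, div_one, famPt_coef, famPt_pt, Matrix.trace,
    ← Finset.sum_erase_add _ _ (Finset.mem_univ (Fin.last N)), traceConst]
  congr 1
  · refine Finset.sum_congr rfl fun k hk => ?_
    rw [Matrix.diag_apply, jac_fam_ne_last (by omega) c _ (Finset.ne_of_mem_erase hk)]
  · rw [Matrix.diag_apply, jac_fam_last (by omega) hd c _ (basePt_zero _) (basePt_last hN _)]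

end Pool.Agent.Helper27.DynMod
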